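import Pool.Agent.K9h94.SB.Sel

/-!
Noise on a part of the blocks: the images of a letter and of a word which covers it.
-/

set_option autoImplicit false

namespace Pool.Agent.K9h94.SB

open Pool.Agent.H812R2.PI Pool.Agent.TH100.Pisot Pool.Agent.Y480.PI Pool.Agent.K9h94.SA
open scoped BigOperators

variable {d : ℕ} {W : Fin d → List (List (Fin d))}

theorem prob_mono' {μ : (Idx W → List (Fin d)) → ℝ} (hμ : ∀ x ∈ outcomes W, 0 ≤ μ x)
    {E E' : (Fin d → List (Fin d)) → Prop}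
    (h : ∀ x ∈ outcomes W, E (glue W x) → E' (glue W x)) :
    prob W μ E ≤ prob W μ E' := by
  classical
  unfold prob
  refine Finset.sum_le_sum_of_subset_of_nonneg ?_ ?_
  · intro x hx
    rw [Finset.mem_filter] at hx ⊢
    exact ⟨hx.1, h x hx.1 hx.2⟩
  · intro x hx _
    exact hμ x (Finset.mem_filter.1 hx).1

theorem prob_union' {μ : (Idx W → List (Fin d)) → ℝ} (hμ : ∀ x ∈ outcomes W, 0 ≤ μ x)
    {τ : Type} (F : Finset τ) {E : (Fin d → List (Fin d)) → Prop}
    {E' : τ → (Fin d → List (Fin d)) → Prop}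
    (h : ∀ x ∈ outcomes W, E (glue W x) → ∃ t ∈ F, E' t (glue W x)) :
    prob W μ E ≤ ∑ t ∈ F, prob W μ (E' t) := by
  classical
  unfold prob
  simp only [Finset.sum_filter]
  rw [Finset.sum_comm]
  refine Finset.sum_le_sum fun x hx => ?_
  have hw := hμ x hx
  have hn : ∀ t ∈ F, 0 ≤ (if E' t (glue W x) then μ x else 0) := by
    intro t _
    split_ifs
    · exact hw
    · exact le_rfl
  by_cases hE : E (glue W x)
  · obtain ⟨t, ht, htE⟩ := h x hx hE
    rw [if_pos hE]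
    refine le_trans ?_ (Finset.single_le_sum hn ht)
    rw [if_pos htE]
  · rw [if_neg hE]
    exact Finset.sum_nonneg hn

/-- a value between the first and the last one is between two consecutive ones -/
theorem between (c : ℕ → ℤ) (x : ℤ) : ∀ r : ℕ, c 0 ≤ x → x < c r →
    ∃ i < r, c i ≤ x ∧ x < c (i + 1) := by
  intro r
  induction r with
  | zero => intro h1 h2; omega
  | succ r ih =>
    intro h1 h2
    by_cases h : x < c r
    · obtain ⟨i, hi, h3⟩ := ih h1 h
      exact ⟨i, by omega, h3⟩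
    · exact ⟨r, by omega, by omega, h2⟩

theorem edges_ext (τ : Fin d → List (Fin d)) (z : Fin d → ℤ) (w : List (Fin d)) (i : ℕ)
    (hi : i < w.length) {e : (Fin d → ℤ) × Fin d}
    (he : e ∈ edges (z + (inc τ).mulVec (ab (w.take i))) (τ w[i])) :
    e ∈ edges z (ext τ w) := by
  have h1 : w = w.take i ++ (w[i] :: w.drop (i + 1)) := by
    rw [← List.drop_eq_getElem_cons hi, List.take_append_drop]
  have h2 : ext τ w = ext τ (w.take i) ++ (τ w[i] ++ ext τ (w.drop (i + 1))) := by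
    conv_lhs => rw [h1]
    rw [ext_append, ext_cons]
  rw [h2, edges_append, edges_append, List.mem_append, List.mem_append, ab_ext]
  exact Or.inr (Or.inl he)

/-- the growth of the sums -/
theorem sum_large {M : Matrix (Fin d) (Fin d) ℤ} (P : PD M) (a : Fin d) (x : Fin d → ℤ)
    (hx : 0 < P.ht x) (X : ℤ) : ∃ n₀ : ℕ, ∀ n ≥ n₀, X ≤ ∑ i, (M ^ n).mulVec x i := by
  obtain ⟨n₁, h1⟩ := GGeom_sum P a x 1 one_pos
  have hL := GGeom_L P a
  have hpos : 0 < (∑ i, P.ell i * P.u i)⁻¹ * P.ht x := mul_pos (inv_pos.2 hL) hx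
  have h2 := tendsto_pow_atTop_atTop_of_one_lt P.lam_gt
  obtain ⟨n₂, h3⟩ := Filter.eventually_atTop.1
    ((Filter.tendsto_atTop.1 h2) (((X : ℝ) + 1) / ((∑ i, P.ell i * P.u i)⁻¹ * P.ht x)))
  refine ⟨max n₁ n₂, fun n hn => ?_⟩
  have h4 := h1 n (le_trans (le_max_left _ _) hn)
  have h5 := h3 n (le_trans (le_max_right _ _) hn)
  rw [div_le_iff₀ hpos] at h5
  have h6 := (abs_le.1 h4).1
  have h7 : (X : ℝ) ≤ ((∑ i, (M ^ n).mulVec x i : ℤ) : ℝ) := by
    push_cast
    nlinarith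
  exact_mod_cast h7

theorem sum_abs_large {M : Matrix (Fin d) (Fin d) ℤ} (P : PD M) (a : Fin d) (x : Fin d → ℤ)
    (hx : x ≠ 0) (X : ℤ) : ∃ n₀ : ℕ, ∀ n ≥ n₀, X ≤ |∑ i, (M ^ n).mulVec x i| := by
  have hx0 : P.ht x ≠ 0 := fun h => hx (P.ell_ind x h)
  rcases lt_or_gt_of_ne hx0 with h | h
  · obtain ⟨n₀, h1⟩ := sum_large P a (-x) (by
      have : P.ht (-x) = - P.ht x := by
        simp [PD.ht]
      rw [this]
      linarith) X
    refine ⟨n₀, fun n hn => (h1 n hn).trans ?_⟩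
    rw [Matrix.mulVec_neg]
    simp only [Pi.neg_apply, Finset.sum_neg_distrib]
    exact neg_le_abs _
  · obtain ⟨n₀, h1⟩ := sum_large P a x h X
    exact ⟨n₀, fun n hn => (h1 n hn).trans (le_abs_self _)⟩

theorem sum_nonneg_of {M : Matrix (Fin d) (Fin d) ℤ} (P : PD M) (a : Fin d) (x : Fin d → ℤ)
    (hx : 0 ≤ P.ht x) : ∃ n₀ : ℕ, ∀ n ≥ n₀, 0 ≤ ∑ i, (M ^ n).mulVec x i := by
  rcases hx.eq_or_lt with h | h
  · have : x = 0 := P.ell_ind x h.symm
    subst this
    exact ⟨0, fun n _ => by simp⟩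
  · exact sum_large P a x h 0

theorem len_sum {u : Fin d → ℝ} {A : Matrix (Fin d) (Fin d) ℤ} {B : ℝ} {σ : Fin d → List (Fin d)}
    (hσ : σ ∈ SubSet u A B) (a : Fin d) : ((σ a).length : ℤ) = ∑ i, A.mulVec (ev a) i := by
  rw [← hσ.1, ← ab_subst, ab_sum]

/-- the image of a letter and the image of a word which covers it -/
theorem config_bound {M : Matrix (Fin d) (Fin d) ℤ} (P : PD M) (B : ℝ) (H L : ℕ)
    (hsurg : Surg P.u B H) (b : Fin d) (z : Fin d → ℤ)
    (w : List (Fin d)) (hz : P.ht z ≤ 0) (hw : P.ell b ≤ P.ht (z + ab w)) :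
    ∃ c : ℝ, 0 < c ∧ ∃ n₀ : ℕ, ∀ n ≥ n₀, 1 ≤ n → ∀ σ ∈ SubSet P.u (M ^ n) B,
      ∀ W : Fin d → List (List (Fin d)), (∀ a, (W a).flatten = σ a) →
      (∀ a, ∀ w ∈ W a, 2 * (2 * H + 1) ≤ w.length ∧ w.length ≤ L) →
      ∀ N Z : Finset (Idx W),
      ∀ κ ε : ℝ, 0 ≤ κ → κ ≤ 1 → 0 ≤ ε → ε ≤ 1 →
      ∀ μ : (Idx W → List (Fin d)) → ℝ, IsNoiseOn W N Z κ ε μ →
      prob W μ (fun S => ¬ ∃ e, e ∈ edges 0 (S b) ∧
        e ∈ edges ((M ^ n).mulVec z) (ext S w)) ≤ Real.exp 1 * Real.exp (-(κ * ε *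
          (c * ((Finset.univ.filter
            (fun j : Fin (W b).length => (⟨b, j⟩ : Idx W) ∈ N)).card : ℝ) - Z.card))) := by
  classical
  obtain ⟨r, hr⟩ : ∃ r, r = w.length := ⟨_, rfl⟩
  have hr0 : 0 < r := by
    rcases Nat.eq_zero_or_pos r with h | h
    · rw [hr] at h
      rw [List.length_eq_zero_iff.1 h, ab_nil, add_zero] at hw
      have := P.ell_pos b
      linarith
    · exact h
  obtain ⟨v, hv⟩ : ∃ v : ℕ → Fin d → ℤ, v = fun i => z + ab (w.take i) := ⟨_, rfl⟩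
  -- large n
  obtain ⟨n1, hn1⟩ := sum_nonneg_of P b (-z) (by
    have : P.ht (-z) = - P.ht z := by simp [PD.ht]
    rw [this]
    linarith)
  obtain ⟨n2, hn2⟩ := sum_nonneg_of P b (z + ab w + -ev b) (by
    have : P.ht (-ev b) = - P.ht (ev b) := by simp [PD.ht]
    rw [ht_add, this, ht_ev]
    linarith)
  have hall3 : ∀ i : Fin r, ∃ n₀ : ℕ, ∀ n ≥ n₀, dis P.u ((M ^ n).mulVec (-(v i))) ≤ 1 :=
    fun i => GGeom_dis P _
  choose n3 hn3 using hall3
  have hall4 : ∀ i : Fin r, ∃ n₀ : ℕ, v i ≠ 0 → ∀ n ≥ n₀,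
      ((L : ℤ) + 1) ≤ |∑ j, (M ^ n).mulVec (-(v i)) j| := by
    intro i
    by_cases h : v i = 0
    · exact ⟨0, fun h' => absurd h h'⟩
    · obtain ⟨n₀, h1⟩ := sum_abs_large P b (-(v i)) (neg_ne_zero.2 h) ((L : ℤ) + 1)
      exact ⟨n₀, fun _ => h1⟩
  choose n4 hn4 using hall4
  have hLr : (0 : ℝ) < 2 * L + 2 := by positivity
  have hrr : (0 : ℝ) < r := by exact_mod_cast hr0
  obtain ⟨q, hq⟩ : ∃ q : ℝ, q = (r : ℝ) * (2 * L + 2) := ⟨_, rfl⟩
  have hq0 : 0 < q := by rw [hq]; positivity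
  refine ⟨q⁻¹, inv_pos.2 hq0,
    n1 + n2 + ∑ i, n3 i + ∑ i, n4 i, fun n hn h1n σ hσ W hW hL N Z κ ε hκ hκ1 hε hε1 μ hμ => ?_⟩
  have hxpos : 0 < P.lam ^ n := pow_pos (lt_trans one_pos P.lam_gt) n
  have hinc : ∀ x ∈ outcomes W, inc (glue W x) = M ^ n := by
    intro x hx
    rw [← hσ.1]
    ext i j
    have : ab (glue W x j) = ab (σ j) := by rw [glue_ab hx, hW]
    exact congrFun this i
  obtain ⟨c', hc'⟩ : ∃ c' : ℕ → ℤ, c' = fun i => ∑ j, (M ^ n).mulVec (v i) j := ⟨_, rfl⟩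
  have hc'0 : c' 0 ≤ 0 := by
    have h1 := hn1 n (by omega)
    rw [Matrix.mulVec_neg] at h1
    simp only [Pi.neg_apply, Finset.sum_neg_distrib] at h1
    rw [hc', hv]
    simp only [List.take_zero, ab_nil, add_zero]
    linarith
  have hc'r : ((σ b).length : ℤ) ≤ c' r := by
    have h1 := hn2 n (by omega)
    rw [Matrix.mulVec_add, Matrix.mulVec_neg] at h1
    simp only [Pi.neg_apply, Pi.add_apply, Finset.sum_neg_distrib, Finset.sum_add_distrib] at h1
    rw [len_sum hσ b, hc', hv, hr]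
    simp only [List.take_length]
    rw [Matrix.mulVec_add] at h1 ⊢
    simp only [Pi.add_apply, Finset.sum_add_distrib] at h1 ⊢
    linarith
  have hc's : ∀ (i : ℕ) (hi : i < w.length), c' (i + 1) = c' i + (σ w[i]).length := by
    intro i hi
    have h1 : ab (w.take (i + 1)) = ab (w.take i) + ev w[i] := GBad_take_succ w i hi
    rw [len_sum hσ, hc', hv]
    simp only
    rw [h1, ← add_assoc, Matrix.mulVec_add]
    simp only [Pi.add_apply, Finset.sum_add_distrib]
  -- the degenerate case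
  by_cases hdeg : ∃ i : Fin r, v i = 0 ∧ w[(i : ℕ)]'(by rw [← hr]; exact i.2) = b
  · obtain ⟨i, hi1, hi2⟩ := hdeg
    have hiw : (i : ℕ) < w.length := by rw [← hr]; exact i.2
    have h0 : prob W μ (fun S => ¬ ∃ e, e ∈ edges 0 (S b) ∧
        e ∈ edges ((M ^ n).mulVec z) (ext S w)) ≤ prob W μ (fun _ => False) := by
      refine prob_mono' hμ.nonneg fun x hx hnot => hnot ?_
      have hne : glue W x b ≠ [] := JList_ne_nil (P.pow n h1n) _ (hinc x hx) b
      obtain ⟨y, l, hyl⟩ := List.exists_cons_of_ne_nil hne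
      refine ⟨(0, y), by rw [hyl]; simp [edges], edges_ext _ _ _ i hiw ?_⟩
      rw [hinc x hx, ← Matrix.mulVec_add]
      have : z + ab (w.take i) = 0 := by
        rw [← hi1, hv]
      rw [this, Matrix.mulVec_zero, hi2, hyl]
      simp [edges]
    have h00 : prob W μ (fun _ => False) = 0 := by
      unfold prob
      simp
    rw [h00] at h0
    refine h0.trans ?_
    positivity
  push Not at hdeg
  -- the noisy blocks inside of the image of a letter of `w`
  obtain ⟨Nb, hNb⟩ : ∃ Nb : Finset (Fin (W b).length), Nb = Finset.univ.filter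
    (fun j : Fin (W b).length => (⟨b, j⟩ : Idx W) ∈ N) := ⟨_, rfl⟩
  obtain ⟨J, hJ⟩ : ∃ J : ℕ → Finset (Fin (W b).length), J = fun i => Nb.filter
    (fun j : Fin (W b).length => c' i ≤ (st (W b) j : ℤ) ∧ (st (W b) j : ℤ) + (W b)[j].length ≤ c' (i + 1)) :=
    ⟨_, rfl⟩
  obtain ⟨Sd, hSd⟩ : ∃ Sd : ℕ → Finset (Fin (W b).length), Sd = fun i => Nb.filter
    (fun j : Fin (W b).length => (st (W b) j : ℤ) < c' (i + 1) ∧ c' (i + 1) < (st (W b) j : ℤ) + (W b)[j].length) :=
    ⟨_, rfl⟩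
  have hlenb : ∀ j : Fin (W b).length, 2 * (2 * H + 1) ≤ (W b)[j].length ∧ (W b)[j].length ≤ L :=
    fun j => hL b _ (List.getElem_mem j.2)
  have hSd1 : ∀ i, (Sd i).card ≤ 1 := by
    intro i
    rw [Finset.card_le_one]
    intro x hx y hy
    rw [hSd] at hx hy
    simp only [Finset.mem_filter] at hx hy
    rcases lt_trichotomy (x : ℕ) (y : ℕ) with h | h | h
    · have h1 := st_lt (W b) x.2 h
      have h2 : (W b)[(x : ℕ)].length = (W b)[x].length := rfl
      omega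
    · exact Fin.ext h
    · have h1 := st_lt (W b) y.2 h
      have h2 : (W b)[(y : ℕ)].length = (W b)[y].length := rfl
      omega
  have hcover : Nb ⊆ (Finset.range r).biUnion (fun i => J i ∪ Sd i) := by
    intro j hj
    have h1 := end_le (W b) j j.2
    rw [hW] at h1
    have h2 := (hlenb j).1
    have h3 : (W b)[(j : ℕ)].length = (W b)[j].length := rfl
    obtain ⟨i, hi, h4, h5⟩ := between c' (st (W b) j : ℤ) r (by omega) (by omega)
    rw [Finset.mem_biUnion]
    refine ⟨i, Finset.mem_range.2 hi, ?_⟩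
    rw [Finset.mem_union, hJ, hSd]
    simp only [Finset.mem_filter]
    by_cases h6 : (st (W b) j : ℤ) + (W b)[j].length ≤ c' (i + 1)
    · exact Or.inl ⟨hj, h4, h6⟩
    · exact Or.inr ⟨hj, h5, by omega⟩
  obtain ⟨i, hi, hJi⟩ : ∃ i < r, (Nb.card : ℝ) / r - 1 ≤ (J i).card := by
    by_contra hcon
    push Not at hcon
    have h1 := Finset.card_le_card hcover
    have h2 : ((Finset.range r).biUnion (fun i => J i ∪ Sd i)).card ≤
        ∑ i ∈ Finset.range r, ((J i).card + 1) := by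
      refine Finset.card_biUnion_le.trans (Finset.sum_le_sum fun i _ => ?_)
      exact (Finset.card_union_le _ _).trans (Nat.add_le_add_left (hSd1 i) _)
    have h3 : (Nb.card : ℝ) ≤ ∑ i ∈ Finset.range r, (((J i).card : ℝ) + 1) := by
      exact_mod_cast h1.trans h2
    have h4 : ∑ i ∈ Finset.range r, (((J i).card : ℝ) + 1) <
        ∑ _i ∈ Finset.range r, ((Nb.card : ℝ) / r) := by
      refine Finset.sum_lt_sum_of_nonempty ⟨0, Finset.mem_range.2 hr0⟩ fun i hi => ?_
      have := hcon i (Finset.mem_range.1 hi)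
      linarith
    rw [Finset.sum_const, Finset.card_range, nsmul_eq_mul, mul_div_cancel₀ _ hrr.ne'] at h4
    linarith
  have hiw : i < w.length := by rw [← hr]; exact hi
  have hs3 := hn3 ⟨i, hi⟩ n (by
    have := Finset.single_le_sum (f := n3) (fun _ _ => Nat.zero_le _)
      (Finset.mem_univ (⟨i, hi⟩ : Fin r))
    omega)
  have hsum : ∑ j, (M ^ n).mulVec (-(v i)) j = - c' i := by
    rw [Matrix.mulVec_neg, hc']
    simp only [Pi.neg_apply, Finset.sum_neg_distrib]
  have hb := pairs_bound2 (a := w[i]) (b := b) (s := (M ^ n).mulVec (-(v i))) hsurg hσ hW hL hμ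
    hκ hκ1 hε hε1 hs3 (by
      intro h
      have h1 := hn4 ⟨i, hi⟩ (fun h2 => hdeg ⟨i, hi⟩ h2 h) n (by
        have := Finset.single_le_sum (f := n4) (fun _ _ => Nat.zero_le _)
          (Finset.mem_univ (⟨i, hi⟩ : Fin r))
        omega)
      exact lt_of_lt_of_le (by omega) h1) (J i) (by
      intro j hj
      rw [hJ] at hj
      simp only [Finset.mem_filter] at hj
      have := hj.1
      rw [hNb] at this
      exact (Finset.mem_filter.1 this).2) (by
      intro j hj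
      rw [hJ] at hj
      simp only [Finset.mem_filter] at hj
      rw [hsum]
      have h1 := hc's i hiw
      constructor
      · omega
      · push_cast
        omega)
  refine (prob_mono' hμ.nonneg ?_).trans (hb.trans ?_)
  · intro x hx hnot hcon
    apply hnot
    obtain ⟨e, he1, he2⟩ := hcon
    -- translate by `M ^ n v i`
    have t1 : ((e.1 + (M ^ n).mulVec (v i), e.2) : (Fin d → ℤ) × Fin d) ∈
        edges (0 + (M ^ n).mulVec (v i)) (glue W x w[i]) := by
      rw [edges_translate]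
      exact List.mem_map.2 ⟨e, he1, rfl⟩
    have t2 : ((e.1 + (M ^ n).mulVec (v i), e.2) : (Fin d → ℤ) × Fin d) ∈
        edges ((M ^ n).mulVec (-(v i)) + (M ^ n).mulVec (v i)) (glue W x b) := by
      rw [edges_translate]
      exact List.mem_map.2 ⟨e, he2, rfl⟩
    rw [Matrix.mulVec_neg, neg_add_cancel] at t2
    rw [zero_add] at t1
    refine ⟨_, t2, edges_ext _ _ _ i hiw ?_⟩
    rw [hinc x hx, ← Matrix.mulVec_add]
    rw [hv] at t1
    rw [hv]
    exact t1
  · rw [← Real.exp_add, Real.exp_le_exp]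
    have h8 : κ * ε ≤ 1 := by nlinarith
    have h9 : 0 ≤ κ * ε := mul_nonneg hκ hε
    rw [← hNb]
    have h11 : ((Nb.card : ℝ) / r - 1) / (2 * L + 2) ≤ ((J i).card : ℝ) / (2 * L + 2) :=
      div_le_div_of_nonneg_right hJi hLr.le
    have h12 : ((Nb.card : ℝ) / r - 1) / (2 * L + 2) = q⁻¹ * Nb.card - 1 / (2 * L + 2) := by
      rw [hq]
      field_simp
    have h13 : 1 / (2 * (L : ℝ) + 2) ≤ 1 := by
      rw [div_le_one hLr]
      have : (0 : ℝ) ≤ L := Nat.cast_nonneg L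
      linarith
    have h14 : (q⁻¹ * Nb.card - Z.card) - 1 ≤ ((J i).card : ℝ) / (2 * L + 2) - Z.card := by linarith
    have h15 := mul_le_mul_of_nonneg_left h14 h9
    nlinarith

end Pool.Agent.K9h94.SB
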