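import Pool.Agent.K9h94.SB.Config

/-!
The images of overlapping edges contain a given letter which is covered by a short word of the other
path.
-/

set_option autoImplicit false

namespace Pool.Agent.K9h94.SB

open Pool.Agent.H812R2.PI Pool.Agent.TH100.Pisot Pool.Agent.Y480.PI Pool.Agent.K9h94.SA
open scoped BigOperators

variable {d : ℕ}

/-- the images of the letter `b` and of short words which cover it have a common edge -/
def Cov {M : Matrix (Fin d) (Fin d) ℤ} (P : PD M) (S : Fin d → List (Fin d)) (b : Fin d) (D : ℝ)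
    (R : ℕ) : Prop :=
  ∀ (z : Fin d → ℤ) (w : List (Fin d)), P.ht z ≤ 0 → P.ell b ≤ P.ht (z + ab w) →
    P.N (rv z) ≤ D → w.length ≤ R →
    ∃ e, e ∈ edges 0 (S b) ∧ e ∈ edges ((inc S).mulVec z) (ext S w)

theorem between_real (c : ℕ → ℝ) (x : ℝ) : ∀ r : ℕ, c 0 ≤ x → x < c r →
    ∃ i < r, c i ≤ x ∧ x < c (i + 1) := by
  intro r
  induction r with
  | zero => intro h1 h2; linarith
  | succ r ih =>
    intro h1 h2
    by_cases h : x < c r
    · obtain ⟨i, hi, h3⟩ := ih h1 h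
      exact ⟨i, by omega, h3⟩
    · exact ⟨r, by omega, by linarith, h2⟩

theorem ht_step {M : Matrix (Fin d) (Fin d) ℤ} (P : PD M) (w : List (Fin d)) {i : ℕ}
    (hi : i < w.length) : P.ht (ab (w.take (i + 1))) = P.ht (ab (w.take i)) + P.ell w[i] := by
  rw [GBad_take_succ w i hi, ht_add, ht_ev]

theorem ht_diff {M : Matrix (Fin d) (Fin d) ℤ} (P : PD M) {δ Λ : ℝ} (hδ : ∀ i, δ ≤ P.ell i)
    (hΛ : ∀ i, P.ell i ≤ Λ) (w : List (Fin d)) {i : ℕ} : ∀ j : ℕ, i ≤ j → j ≤ w.length →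
    ((j : ℝ) - i) * δ ≤ P.ht (ab (w.take j)) - P.ht (ab (w.take i)) ∧
      P.ht (ab (w.take j)) - P.ht (ab (w.take i)) ≤ ((j : ℝ) - i) * Λ := by
  intro j hij
  induction j, hij using Nat.le_induction with
  | base => intro _; simp
  | succ j hij ih =>
    intro hj
    obtain ⟨h1, h2⟩ := ih (by omega)
    rw [ht_step P w (show j < w.length by omega)]
    push_cast
    have h3 := hδ w[j]
    have h4 := hΛ w[j]
    constructor <;> linarith

/-- long factors contain every letter -/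
theorem contains_letter {M : Matrix (Fin d) (Fin d) ℤ} (P : PD M) {BS : ℝ} {R₀ : ℕ} (b : Fin d)
    (hR : P.c * (2 * BS) < R₀ * P.u b) (w : List (Fin d))
    (hw : ∀ j, P.N (rv (ab (w.take j))) ≤ BS) (k : ℕ) (hk : k + R₀ ≤ w.length) :
    ∃ (i : ℕ) (hi : i < w.length), k ≤ i ∧ i < k + R₀ ∧ w[i] = b := by
  obtain ⟨f, hf⟩ : ∃ f, f = (w.drop k).take R₀ := ⟨_, rfl⟩
  have hflen : f.length = R₀ := by
    rw [hf, List.length_take, List.length_drop]
    omega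
  have h1 : w.take (k + R₀) = w.take k ++ f := by
    rw [hf, ← List.take_add]
  have h2 : ab f = ab (w.take (k + R₀)) + -ab (w.take k) := by
    rw [h1, ab_append]
    abel
  have h3 : P.N (rv (ab f)) ≤ 2 * BS := by
    rw [h2, rv_add, rv_neg]
    refine (P.N_add _ _).trans ?_
    rw [P.N_neg]
    linarith [hw (k + R₀), hw k]
  have h4 := P.le_cN (rv (ab f)) b
  have h5 : ∑ j, rv (ab f) j = (R₀ : ℝ) := by
    have := ab_sum f
    rw [hflen] at this
    have h : ((∑ i, ab f i : ℤ) : ℝ) = ((R₀ : ℤ) : ℝ) := by rw [this]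
    push_cast at h
    exact h
  rw [h5] at h4
  have h6 : P.c * P.N (rv (ab f)) ≤ P.c * (2 * BS) := mul_le_mul_of_nonneg_left h3 P.c_pos.le
  have h7 : 0 < rv (ab f) b := by
    have := (abs_le.1 h4).1
    linarith
  have h8 : b ∈ f := by
    have h9 : 0 < ab f b := by
      unfold rv at h7
      exact_mod_cast h7
    unfold ab at h9
    exact List.count_pos_iff.1 (by exact_mod_cast h9)
  obtain ⟨i, hi, he⟩ := List.mem_iff_getElem.1 h8
  rw [hflen] at hi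
  refine ⟨k + i, by omega, by omega, by omega, ?_⟩
  rw [← he]
  simp [hf]

/-- the geometric lemma -/
theorem cover {M : Matrix (Fin d) (Fin d) ℤ} (P : PD M) (BS D : ℝ) (hBS : 0 ≤ BS) (hD : 0 ≤ D) :
    ∃ (R : ℕ) (n₀ : ℕ), ∀ n ≥ n₀, ∀ Q : Fin d → List (Fin d), inc Q = M ^ n →
      (∀ a j, P.N (rv (ab ((Q a).take j))) ≤ BS) → ∀ b a a' : Fin d, ∀ v : Fin d → ℤ,
      P.N (rv v) ≤ D → 0 < P.OV (0, a) (v, a') →
      ∃ (k : ℕ) (hk : k < (Q a).length) (i₁ i₂ : ℕ), (Q a)[k] = b ∧ i₁ ≤ i₂ ∧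
        i₂ ≤ (Q a').length ∧ i₂ ≤ i₁ + R ∧
        P.ht ((M ^ n).mulVec v + ab ((Q a').take i₁) + -ab ((Q a).take k)) ≤ 0 ∧
        P.ell b ≤ P.ht ((M ^ n).mulVec v + ab ((Q a').take i₂) + -ab ((Q a).take k)) ∧
        P.N (rv ((M ^ n).mulVec v + ab ((Q a').take i₁) + -ab ((Q a).take k))) ≤ D + 2 * BS := by
  classical
  rcases Nat.eq_zero_or_pos d with hd | hd
  · subst hd
    exact ⟨0, 0, fun n _ Q _ _ b => b.elim0⟩
  have a₀ : Fin d := ⟨0, hd⟩
  obtain ⟨Λ, hΛd⟩ : ∃ Λ : ℝ, Λ = ∑ i, P.ell i := ⟨_, rfl⟩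
  have hΛ : ∀ i, P.ell i ≤ Λ := fun i => by
    rw [hΛd]
    exact Finset.single_le_sum (fun j _ => (P.ell_pos j).le) (Finset.mem_univ i)
  have hΛ0 : 0 < Λ := lt_of_lt_of_le (P.ell_pos a₀) (hΛ a₀)
  obtain ⟨δ, hδd⟩ : ∃ δ : ℝ, δ = (∑ i, (P.ell i)⁻¹)⁻¹ := ⟨_, rfl⟩
  have hinvpos : ∀ i, 0 < (P.ell i)⁻¹ := fun i => inv_pos.2 (P.ell_pos i)
  have hs0 : 0 < ∑ i, (P.ell i)⁻¹ :=
    Finset.sum_pos (fun i _ => hinvpos i) ⟨a₀, Finset.mem_univ _⟩
  have hδ0 : 0 < δ := by rw [hδd]; exact inv_pos.2 hs0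
  have hδ : ∀ i, δ ≤ P.ell i := fun i => by
    rw [hδd]
    refine inv_le_of_inv_le₀ (P.ell_pos i) ?_
    exact Finset.single_le_sum (f := fun i => (P.ell i)⁻¹) (fun j _ => (hinvpos j).le)
      (Finset.mem_univ i)
  -- letters
  obtain ⟨R₀, hR₀⟩ : ∃ R₀ : ℕ, ∀ b, P.c * (2 * BS) < R₀ * P.u b := by
    obtain ⟨R₀, h⟩ := exists_nat_gt (∑ b, P.c * (2 * BS) / P.u b)
    refine ⟨R₀, fun b => ?_⟩
    have h1 : P.c * (2 * BS) / P.u b ≤ ∑ b, P.c * (2 * BS) / P.u b :=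
      Finset.single_le_sum (f := fun b => P.c * (2 * BS) / P.u b)
        (fun j _ => div_nonneg (mul_nonneg P.c_pos.le (by linarith)) (P.u_pos j).le)
        (Finset.mem_univ b)
    have h2 := lt_of_le_of_lt h1 h
    rwa [div_lt_iff₀ (P.u_pos b)] at h2
  -- the least overlap
  have hfin := pairs_finite P D
  obtain ⟨δ₀, hδ₀, hover⟩ : ∃ δ₀ : ℝ, 0 < δ₀ ∧ ∀ t : Fin d × Fin d × (Fin d → ℤ),
      (P.N (rv t.2.2) ≤ D ∧ 0 < P.OV (0, t.1) (t.2.2, t.2.1)) →
      δ₀ ≤ min (P.ell t.1) (P.ht t.2.2 + P.ell t.2.1) - max 0 (P.ht t.2.2) := by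
    have hpos : ∀ t ∈ hfin.toFinset, 0 < min (P.ell t.1) (P.ht t.2.2 + P.ell t.2.1) -
        max 0 (P.ht t.2.2) := by
      intro t ht
      have h1 := ((Set.Finite.mem_toFinset _).1 ht).2
      by_contra hcon
      unfold PD.OV ovl at h1
      simp only [ht_zero, zero_add] at h1
      rw [max_eq_left (by linarith)] at h1
      exact lt_irrefl _ h1
    have hs : 0 ≤ ∑ t ∈ hfin.toFinset, (min (P.ell t.1) (P.ht t.2.2 + P.ell t.2.1) -
        max 0 (P.ht t.2.2))⁻¹ := Finset.sum_nonneg fun t ht => (inv_pos.2 (hpos t ht)).le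
    refine ⟨(1 + ∑ t ∈ hfin.toFinset, (min (P.ell t.1) (P.ht t.2.2 + P.ell t.2.1) -
        max 0 (P.ht t.2.2))⁻¹)⁻¹, by positivity, fun t ht => ?_⟩
    have hmem : t ∈ hfin.toFinset := (Set.Finite.mem_toFinset _).2 ht
    have h1 := Finset.single_le_sum (f := fun t => (min (P.ell t.1) (P.ht t.2.2 + P.ell t.2.1) -
        max 0 (P.ht t.2.2))⁻¹) (fun t ht => (inv_pos.2 (hpos t ht)).le) hmem
    exact inv_le_of_inv_le₀ (hpos t hmem) (by linarith)
  obtain ⟨n₀, hn₀⟩ := Filter.eventually_atTop.1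
    ((Filter.tendsto_atTop.1 (tendsto_pow_atTop_atTop_of_one_lt P.lam_gt))
      ((((R₀ : ℝ) + 3) * Λ) / δ₀))
  obtain ⟨R, hR⟩ := exists_nat_ge (2 * Λ / δ + 1)
  refine ⟨R, n₀, fun n hn Q hQ hpre b a a' v hv hov => ?_⟩
  have hx := hn₀ n hn
  rw [div_le_iff₀ hδ₀] at hx
  have hlp : 0 < P.lam ^ n := pow_pos (lt_trans one_pos P.lam_gt) n
  have hO := hover (a, a', v) ⟨hv, hov⟩
  simp only at hO
  obtain ⟨h, hh⟩ : ∃ h : ℕ → ℝ, h = fun k => P.ht (ab ((Q a).take k)) := ⟨_, rfl⟩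
  obtain ⟨g, hg⟩ : ∃ g : ℕ → ℝ, g = fun k => P.lam ^ n * P.ht v + P.ht (ab ((Q a').take k)) :=
    ⟨_, rfl⟩
  have hend : ∀ c : Fin d, P.ht (ab (Q c)) = P.lam ^ n * P.ell c := by
    intro c
    rw [ab_subst, hQ, ht_pow_mulVec, ht_ev]
  have hh0 : h 0 = 0 := by rw [hh]; simp [ab_nil, ht_zero]
  have hhe : h (Q a).length = P.lam ^ n * P.ell a := by
    rw [hh]; simp only [List.take_length]; exact hend a
  have hg0 : g 0 = P.lam ^ n * P.ht v := by rw [hg]; simp [ab_nil, ht_zero]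
  have hge : g (Q a').length = P.lam ^ n * P.ht v + P.lam ^ n * P.ell a' := by
    rw [hg]; simp only [List.take_length]; rw [hend a']
  have hhd : ∀ i j : ℕ, i ≤ j → j ≤ (Q a).length → ((j : ℝ) - i) * δ ≤ h j - h i ∧
      h j - h i ≤ ((j : ℝ) - i) * Λ := by
    intro i j hij hj
    rw [hh]
    exact ht_diff P hδ hΛ (Q a) j hij hj
  have hgd : ∀ i j : ℕ, i ≤ j → j ≤ (Q a').length → ((j : ℝ) - i) * δ ≤ g j - g i ∧
      g j - g i ≤ ((j : ℝ) - i) * Λ := by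
    intro i j hij hj
    rw [hg]
    have := ht_diff P hδ hΛ (Q a') j hij hj
    simp only
    constructor <;> linarith [this.1, this.2]
  obtain ⟨lo, hlo⟩ : ∃ lo : ℝ, lo = P.lam ^ n * max 0 (P.ht v) := ⟨_, rfl⟩
  obtain ⟨hi, hhi⟩ : ∃ hi : ℝ, hi = P.lam ^ n * min (P.ell a) (P.ht v + P.ell a') := ⟨_, rfl⟩
  have hlohi : lo + ((R₀ : ℝ) + 3) * Λ ≤ hi := by
    have h1 := mul_le_mul_of_nonneg_left hO hlp.le
    rw [mul_sub, ← hlo, ← hhi] at h1
    linarith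
  have hlo0 : 0 ≤ lo := by rw [hlo]; exact mul_nonneg hlp.le (le_max_left _ _)
  have hlog : g 0 ≤ lo := by
    rw [hg0, hlo]
    exact mul_le_mul_of_nonneg_left (le_max_right _ _) hlp.le
  have hhih : hi ≤ h (Q a).length := by
    rw [hhe, hhi]
    exact mul_le_mul_of_nonneg_left (min_le_left _ _) hlp.le
  have hhig : hi ≤ g (Q a').length := by
    rw [hge, hhi, ← mul_add]
    exact mul_le_mul_of_nonneg_left (min_le_right _ _) hlp.le
  have hRΛ : 0 ≤ (R₀ : ℝ) * Λ := by positivity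
  -- a place in the first path
  obtain ⟨k₀, hk₀, h1, h2⟩ := between_real h lo (Q a).length (by rw [hh0]; exact hlo0)
    (by linarith)
  have h3 : h (k₀ + 1) ≤ lo + Λ := by
    have := (hhd k₀ (k₀ + 1) (by omega) (by omega)).2
    push_cast at this
    linarith
  have hk₁ : k₀ + 1 + R₀ ≤ (Q a).length := by
    by_contra hcon
    have h4 := (hhd (k₀ + 1) (Q a).length (by omega) le_rfl).2
    have h5 : (((Q a).length : ℝ) - ((k₀ + 1 : ℕ) : ℝ)) ≤ R₀ := by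
      have : (Q a).length ≤ R₀ + (k₀ + 1) := by omega
      have : ((Q a).length : ℝ) ≤ R₀ + ((k₀ + 1 : ℕ) : ℝ) := by exact_mod_cast this
      linarith
    have h6 := mul_le_mul_of_nonneg_right h5 hΛ0.le
    linarith
  obtain ⟨k, hk, hk1, hk2, hkb⟩ := contains_letter P b (hR₀ b) (Q a) (hpre a) (k₀ + 1) hk₁
  have h4 : lo < h k := by
    have h5 := (hhd (k₀ + 1) k hk1 (by omega)).1
    have h6 : 0 ≤ ((k : ℝ) - ((k₀ + 1 : ℕ) : ℝ)) * δ := by
      refine mul_nonneg ?_ hδ0.le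
      have : ((k₀ + 1 : ℕ) : ℝ) ≤ k := by exact_mod_cast hk1
      linarith
    linarith
  have h5 : h k ≤ lo + Λ + R₀ * Λ := by
    have h6 := (hhd (k₀ + 1) k hk1 (by omega)).2
    have h7 : ((k : ℝ) - ((k₀ + 1 : ℕ) : ℝ)) ≤ R₀ := by
      have : (k : ℝ) ≤ ((k₀ + 1 : ℕ) : ℝ) + R₀ := by exact_mod_cast hk2.le
      linarith
    have h8 := mul_le_mul_of_nonneg_right h7 hΛ0.le
    linarith
  have h6 : h (k + 1) = h k + P.ell b := by
    rw [hh]
    simp only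
    rw [ht_step P (Q a) hk, hkb]
  have h7 : h (k + 1) < hi := by
    have := hΛ b
    linarith
  -- the covering word
  obtain ⟨i₁, hi₁, g1, g2⟩ := between_real g (h k) (Q a').length (by linarith)
    (by have := P.ell_pos b; linarith)
  obtain ⟨i₂, hi₂, g3, g4⟩ := between_real g (h (k + 1)) (Q a').length
    (by have := P.ell_pos b; linarith) (by linarith)
  have h12 : i₁ ≤ i₂ := by
    by_contra hcon
    have g5 := (hgd (i₂ + 1) i₁ (by omega) (by omega)).1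
    have g6 : 0 ≤ ((i₁ : ℝ) - ((i₂ + 1 : ℕ) : ℝ)) * δ := by
      refine mul_nonneg ?_ hδ0.le
      have : ((i₂ + 1 : ℕ) : ℝ) ≤ i₁ := by exact_mod_cast (by omega : i₂ + 1 ≤ i₁)
      linarith
    have := P.ell_pos b
    linarith
  have hlen : ((i₂ : ℝ) - i₁) ≤ 2 * Λ / δ := by
    rw [le_div_iff₀ hδ0]
    have g5 := (hgd i₁ i₂ h12 (by omega)).1
    have g6 := (hgd i₁ (i₁ + 1) (by omega) (by omega)).2
    push_cast at g6
    have := hΛ b
    linarith
  have hRlen : i₂ + 1 ≤ i₁ + R := by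
    have : ((i₂ + 1 : ℕ) : ℝ) ≤ ((i₁ + R : ℕ) : ℝ) := by
      push_cast
      linarith
    exact_mod_cast this
  have hht : ∀ i : ℕ, P.ht ((M ^ n).mulVec v + ab ((Q a').take i) + -ab ((Q a).take k)) =
      g i - h k := by
    intro i
    have e1 : P.ht (-ab ((Q a).take k)) = - P.ht (ab ((Q a).take k)) := by simp [PD.ht]
    rw [ht_add, ht_add, e1, ht_pow_mulVec, hg, hh]
    ring
  refine ⟨k, hk, i₁, i₂ + 1, hkb, by omega, by omega, hRlen, ?_, ?_, ?_⟩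
  · rw [hht]
    linarith
  · rw [hht]
    linarith
  · rw [rv_add, rv_add, rv_neg]
    refine (P.N_add _ _).trans ?_
    rw [P.N_neg]
    have e1 := P.N_add (rv ((M ^ n).mulVec v)) (rv (ab ((Q a').take i₁)))
    have e2 := N_pow_mulVec P n v
    have e3 : P.rho ^ n * P.N (rv v) ≤ 1 * P.N (rv v) :=
      mul_le_mul_of_nonneg_right (pow_le_one₀ P.rho_nonneg P.rho_lt.le) (P.N_nonneg _)
    linarith [hpre a' i₁, hpre a k]

/-- coincidences after two steps -/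
theorem hit_two {M : Matrix (Fin d) (Fin d) ℤ} (P : PD M) (BS D : ℝ) (hBS : 0 ≤ BS) (hD : 0 ≤ D) :
    ∃ (R : ℕ) (n₀ : ℕ), ∀ n ≥ n₀, ∀ Q : Fin d → List (Fin d), inc Q = M ^ n →
      (∀ a j, P.N (rv (ab ((Q a).take j))) ≤ BS) → ∀ S : Fin d → List (Fin d), ∀ b : Fin d,
      Cov P S b (D + 2 * BS) R → P.Hit (comp S Q) D := by
  obtain ⟨R, n₀, hcov⟩ := cover P BS D hBS hD
  refine ⟨R, n₀, fun n hn Q hQ hpre S b hS a a' v hv hov => ?_⟩
  obtain ⟨k, hk, i₁, i₂, hkb, h12, hi2, hR, c1, c2, c3⟩ := hcov n hn Q hQ hpre b a a' v hv hov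
  obtain ⟨w, hw⟩ : ∃ w, w = ((Q a').take i₂).drop i₁ := ⟨_, rfl⟩
  obtain ⟨z, hz⟩ : ∃ z : Fin d → ℤ, z = (M ^ n).mulVec v + ab ((Q a').take i₁) +
      -ab ((Q a).take k) := ⟨_, rfl⟩
  have h1 : (Q a').take i₂ = (Q a').take i₁ ++ w := by
    have h2 := List.take_append_drop i₁ ((Q a').take i₂)
    rw [List.take_take, min_eq_left h12] at h2
    rw [hw]
    exact h2.symm
  have h2 : Q a' = (Q a').take i₁ ++ (w ++ (Q a').drop i₂) := by
    rw [← List.append_assoc, ← h1, List.take_append_drop]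
  obtain ⟨e, he1, he2⟩ := hS z w (by rw [hz]; exact c1) (by
    have e1 : z + ab w = (M ^ n).mulVec v + ab ((Q a').take i₂) + -ab ((Q a).take k) := by
      rw [h1, ab_append, hz]
      abel
    rw [e1]
    exact c2) (by rw [hz]; exact c3) (by
    rw [hw, List.length_drop, List.length_take]
    omega)
  refine ⟨(e.1 + (inc S).mulVec (ab ((Q a).take k)), e.2), ?_, ?_⟩
  · refine edges_ext S 0 (Q a) k hk ?_
    rw [hkb]
    rw [edges_translate]
    exact List.mem_map.2 ⟨e, he1, rfl⟩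
  · have t1 : ((e.1 + (inc S).mulVec (ab ((Q a).take k)), e.2) : (Fin d → ℤ) × Fin d) ∈
        edges ((inc S).mulVec z + (inc S).mulVec (ab ((Q a).take k))) (ext S w) := by
      rw [edges_translate]
      exact List.mem_map.2 ⟨e, he2, rfl⟩
    have t2 : (inc S).mulVec z + (inc S).mulVec (ab ((Q a).take k)) =
        (inc (comp S Q)).mulVec v + ab (ext S ((Q a').take i₁)) := by
      rw [← Matrix.mulVec_add, hz, neg_add_cancel_right, Matrix.mulVec_add, ab_ext, inc_comp, hQ,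
        Matrix.mulVec_mulVec]
    rw [t2] at t1
    have t3 : comp S Q a' = ext S ((Q a').take i₁) ++ (ext S w ++ ext S ((Q a').drop i₂)) := by
      change ext S (Q a') = _
      conv_lhs => rw [h2]
      rw [ext_append, ext_append]
    rw [t3, edges_append, edges_append, List.mem_append, List.mem_append]
    exact Or.inr (Or.inl t1)

end Pool.Agent.K9h94.SB
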