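import Pool.Agent.K9h94.SB.Gap

/-!
Covered letters in the images of overlapping edges, for several matrices.
-/

set_option autoImplicit false

namespace Pool.Agent.K9h94.SB

open Pool.Agent.H812R2.PI Pool.Agent.TH100.Pisot Pool.Agent.Y480.PI Pool.Agent.K9h94.SA
open Pool.Agent.R889.PZ
open scoped BigOperators

variable {m : ℕ}

theorem pa_rv_add (f : Fin (m+1) → ℝ) (x y : Fin (m+1) → ℤ) :
    pa f (rv (x + y)) = pa f (rv x) + pa f (rv y) := by
  rw [rv_add, pa_add]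

theorem pa_rv_neg (f : Fin (m+1) → ℝ) (x : Fin (m+1) → ℤ) :
    pa f (rv (-x)) = - pa f (rv x) := by
  have h := pa_rv_add f x (-x)
  rw [add_neg_cancel, rv_zero] at h
  have h0 : pa f (0 : Fin (m+1) → ℝ) = 0 := by simp [pa]
  rw [h0] at h
  linarith

theorem pa_rv_ev (f : Fin (m+1) → ℝ) (a : Fin (m+1)) : pa f (rv (ev a)) = f a := by
  unfold pa rv ev
  simp

theorem pa_rv_zero (f : Fin (m+1) → ℝ) : pa f (rv (0 : Fin (m+1) → ℤ)) = 0 := by
  rw [rv_zero]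
  simp [pa]

theorem pa_step (f : Fin (m+1) → ℝ) (w : List (Fin (m+1))) {i : ℕ} (hi : i < w.length) :
    pa f (rv (ab (w.take (i + 1)))) = pa f (rv (ab (w.take i))) + f w[i] := by
  rw [GBad_take_succ w i hi, pa_rv_add, pa_rv_ev]

theorem pa_diff {f : Fin (m+1) → ℝ} {δ Λ : ℝ} (hδ : ∀ i, δ ≤ f i)
    (hΛ : ∀ i, f i ≤ Λ) (w : List (Fin (m+1))) {i : ℕ} : ∀ j : ℕ, i ≤ j → j ≤ w.length →
    ((j : ℝ) - i) * δ ≤ pa f (rv (ab (w.take j))) - pa f (rv (ab (w.take i))) ∧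
      pa f (rv (ab (w.take j))) - pa f (rv (ab (w.take i))) ≤ ((j : ℝ) - i) * Λ := by
  intro j hij
  induction j, hij using Nat.le_induction with
  | base => intro _; simp
  | succ j hij ih =>
    intro hj
    obtain ⟨h1, h2⟩ := ih (by omega)
    rw [pa_step f w (show j < w.length by omega)]
    push_cast
    have h3 := hδ w[j]
    have h4 := hΛ w[j]
    constructor <;> linarith

/-- two paths which run next to each other -/
theorem cover_core {f : Fin (m+1) → ℝ} {δ Λ : ℝ} (hδ0 : 0 < δ) (hδ : ∀ i, δ ≤ f i)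
    (hΛ : ∀ i, f i ≤ Λ) (wa wb : List (Fin (m+1))) (V : Fin (m+1) → ℤ) (b : Fin (m+1)) (R₀ : ℕ)
    (hlet : ∀ k, k + R₀ ≤ wa.length → ∃ (i : ℕ) (hi : i < wa.length), k ≤ i ∧ i < k + R₀ ∧ wa[i] = b)
    (lo hi : ℝ) (hlo : 0 ≤ lo) (hVlo : pa f (rv V) ≤ lo) (hia : hi ≤ pa f (rv (ab wa)))
    (hib : hi ≤ pa f (rv (V + ab wb))) (hlohi : lo + ((R₀ : ℝ) + 3) * Λ ≤ hi) (R : ℕ)
    (hR : 2 * Λ / δ + 1 ≤ R) :
    ∃ (k : ℕ) (hk : k < wa.length) (i₁ i₂ : ℕ), wa[k] = b ∧ i₁ ≤ i₂ ∧ i₂ ≤ wb.length ∧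
      i₂ ≤ i₁ + R ∧ pa f (rv (V + ab (wb.take i₁) + -ab (wa.take k))) ≤ 0 ∧
      -Λ ≤ pa f (rv (V + ab (wb.take i₁) + -ab (wa.take k))) ∧
      f b ≤ pa f (rv (V + ab (wb.take i₂) + -ab (wa.take k))) := by
  have hΛ0 : 0 < Λ := lt_of_lt_of_le hδ0 ((hδ 0).trans (hΛ 0))
  have hf0 : ∀ i, 0 < f i := fun i => lt_of_lt_of_le hδ0 (hδ i)
  obtain ⟨h, hh⟩ : ∃ h : ℕ → ℝ, h = fun k => pa f (rv (ab (wa.take k))) := ⟨_, rfl⟩
  obtain ⟨g, hg⟩ : ∃ g : ℕ → ℝ, g = fun k => pa f (rv V) + pa f (rv (ab (wb.take k))) :=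
    ⟨_, rfl⟩
  have hh0 : h 0 = 0 := by rw [hh]; simp only [List.take_zero, ab_nil]; exact pa_rv_zero f
  have hhe : h wa.length = pa f (rv (ab wa)) := by rw [hh]; simp only [List.take_length]
  have hg0 : g 0 = pa f (rv V) := by
    rw [hg]; simp only [List.take_zero, ab_nil]; rw [pa_rv_zero, add_zero]
  have hge : g wb.length = pa f (rv (V + ab wb)) := by
    rw [hg, pa_rv_add]; simp only [List.take_length]
  have hhd : ∀ i j : ℕ, i ≤ j → j ≤ wa.length → ((j : ℝ) - i) * δ ≤ h j - h i ∧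
      h j - h i ≤ ((j : ℝ) - i) * Λ := by
    intro i j hij hj
    rw [hh]
    exact pa_diff hδ hΛ wa j hij hj
  have hgd : ∀ i j : ℕ, i ≤ j → j ≤ wb.length → ((j : ℝ) - i) * δ ≤ g j - g i ∧
      g j - g i ≤ ((j : ℝ) - i) * Λ := by
    intro i j hij hj
    rw [hg]
    have := pa_diff hδ hΛ wb j hij hj
    simp only
    constructor <;> linarith [this.1, this.2]
  have hlog : g 0 ≤ lo := by rw [hg0]; exact hVlo
  have hhih : hi ≤ h wa.length := by rw [hhe]; exact hia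
  have hhig : hi ≤ g wb.length := by rw [hge]; exact hib
  have hRΛ : 0 ≤ (R₀ : ℝ) * Λ := by positivity
  -- a place in the first path
  obtain ⟨k₀, hk₀, h1, h2⟩ := between_real h lo wa.length (by rw [hh0]; exact hlo)
    (by linarith)
  have h3 : h (k₀ + 1) ≤ lo + Λ := by
    have := (hhd k₀ (k₀ + 1) (by omega) (by omega)).2
    push_cast at this
    linarith
  have hk₁ : k₀ + 1 + R₀ ≤ wa.length := by
    by_contra hcon
    have h4 := (hhd (k₀ + 1) wa.length (by omega) le_rfl).2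
    have h5 : ((wa.length : ℝ) - ((k₀ + 1 : ℕ) : ℝ)) ≤ R₀ := by
      have : wa.length ≤ R₀ + (k₀ + 1) := by omega
      have : (wa.length : ℝ) ≤ R₀ + ((k₀ + 1 : ℕ) : ℝ) := by exact_mod_cast this
      linarith
    have h6 := mul_le_mul_of_nonneg_right h5 hΛ0.le
    linarith
  obtain ⟨k, hk, hk1, hk2, hkb⟩ := hlet (k₀ + 1) hk₁
  have h4 : lo < h k := by
    have h5 := (hhd (k₀ + 1) k hk1 (by omega)).1
    have h6 : 0 ≤ ((k : ℝ) - ((k₀ + 1 : ℕ) : ℝ)) * δ := by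
      refine mul_nonneg ?_ hδ0.le
      have : ((k₀ + 1 : ℕ) : ℝ) ≤ k := by exact_mod_cast hk1
      linarith
    linarith
  have h5 : h k ≤ lo + Λ + R₀ * Λ := by
    have h6 := (hhd (k₀ + 1) k hk1 (by omega)).2
    have h7 : ((k : ℝ) - ((k₀ + 1 : ℕ) : ℝ)) ≤ R₀ := by
      have : (k : ℝ) ≤ ((k₀ + 1 : ℕ) : ℝ) + R₀ := by exact_mod_cast hk2.le
      linarith
    have h8 := mul_le_mul_of_nonneg_right h7 hΛ0.le
    linarith
  have h6 : h (k + 1) = h k + f b := by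
    rw [hh]
    simp only
    rw [pa_step f wa hk, hkb]
  have h7 : h (k + 1) < hi := by
    have := hΛ b
    linarith
  have hfb := hf0 b
  -- the covering word
  obtain ⟨i₁, hi₁, g1, g2⟩ := between_real g (h k) wb.length (by linarith) (by linarith)
  obtain ⟨i₂, hi₂, g3, g4⟩ := between_real g (h (k + 1)) wb.length (by linarith) (by linarith)
  have h12 : i₁ ≤ i₂ := by
    by_contra hcon
    have g5 := (hgd (i₂ + 1) i₁ (by omega) (by omega)).1
    have g6 : 0 ≤ ((i₁ : ℝ) - ((i₂ + 1 : ℕ) : ℝ)) * δ := by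
      refine mul_nonneg ?_ hδ0.le
      have : ((i₂ + 1 : ℕ) : ℝ) ≤ i₁ := by exact_mod_cast (by omega : i₂ + 1 ≤ i₁)
      linarith
    linarith
  have g6 := (hgd i₁ (i₁ + 1) (by omega) (by omega)).2
  push_cast at g6
  have hlen : ((i₂ : ℝ) - i₁) ≤ 2 * Λ / δ := by
    rw [le_div_iff₀ hδ0]
    have g5 := (hgd i₁ i₂ h12 (by omega)).1
    have := hΛ b
    linarith
  have hRlen : i₂ + 1 ≤ i₁ + R := by
    have : ((i₂ + 1 : ℕ) : ℝ) ≤ ((i₁ + R : ℕ) : ℝ) := by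
      push_cast
      linarith
    exact_mod_cast this
  have hht : ∀ i : ℕ, pa f (rv (V + ab (wb.take i) + -ab (wa.take k))) = g i - h k := by
    intro i
    rw [pa_rv_add, pa_rv_add, pa_rv_neg, hg, hh]
    ring
  refine ⟨k, hk, i₁, i₂ + 1, hkb, by omega, by omega, hRlen, ?_, ?_, ?_⟩
  · rw [hht]
    linarith
  · rw [hht]
    linarith
  · rw [hht]
    linarith

/-- long factors contain every letter -/
theorem contains_letter2 {κ θ E : ℝ} {f G : Fin (m+1) → ℝ} (hf : Cmp κ f) (hG : ∀ i, 0 < G i)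
    (hθ : 0 < θ) (hGθ : ∀ b, θ * ∑ i, G i ≤ G b) {R₀ : ℕ} (hR : 2 * E < θ * (R₀ - 2 * E))
    (w : List (Fin (m+1))) (hw : ∀ j, nm (pj f G (rv (ab (w.take j)))) ≤ E) (b : Fin (m+1)) (k : ℕ)
    (hk : k + R₀ ≤ w.length) :
    ∃ (i : ℕ) (hi : i < w.length), k ≤ i ∧ i < k + R₀ ∧ w[i] = b := by
  obtain ⟨y, hy⟩ : ∃ y, y = (w.drop k).take R₀ := ⟨_, rfl⟩
  have hylen : y.length = R₀ := by
    rw [hy, List.length_take, List.length_drop]
    omega
  have h1 : w.take (k + R₀) = w.take k ++ y := by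
    rw [hy, ← List.take_add]
  have h2 : rv (ab y) = rv (ab (w.take (k + R₀))) - rv (ab (w.take k)) := by
    rw [h1, ab_append, rv_add]
    abel
  have hp := pa_pos hf.1 hG
  obtain ⟨x, hx⟩ : ∃ x, x = pj f G (rv (ab y)) := ⟨_, rfl⟩
  obtain ⟨t, ht⟩ : ∃ t, t = pa f (rv (ab y)) / pa f G := ⟨_, rfl⟩
  have h3 : nm x ≤ 2 * E := by
    rw [hx, h2, pj_sub, sub_eq_add_neg]
    refine (nm_add _ _).trans ?_
    rw [nm_neg]
    linarith [hw (k + R₀), hw k]
  have h4 : ∀ i, rv (ab y) i = x i + t * G i := by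
    intro i
    rw [hx, ht]
    simp [pj]
  have ht0 : 0 ≤ t := by
    rw [ht]
    refine div_nonneg (Finset.sum_nonneg fun i _ => mul_nonneg (hf.1 i).le ?_) hp.le
    unfold rv ab
    positivity
  have h5 : ∑ j, rv (ab y) j = (R₀ : ℝ) := by
    have := ab_sum y
    rw [hylen] at this
    have h : ((∑ i, ab y i : ℤ) : ℝ) = ((R₀ : ℤ) : ℝ) := by rw [this]
    push_cast at h
    exact h
  have h6 : t * ∑ i, G i = R₀ - ∑ i, x i := by
    rw [← h5, Finset.mul_sum, ← Finset.sum_sub_distrib]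
    exact Finset.sum_congr rfl fun i _ => by rw [h4 i]; ring
  have h7 := (abs_le.1 (abs_sum_le_nm x)).2
  have h8 := (abs_le.1 (abs_le_nm x b)).1
  have h9 : t * (θ * ∑ i, G i) ≤ t * G b := mul_le_mul_of_nonneg_left (hGθ b) ht0
  have h10 : θ * (R₀ - 2 * E) ≤ θ * (t * ∑ i, G i) := by
    refine mul_le_mul_of_nonneg_left ?_ hθ.le
    rw [h6]
    linarith
  have h11 : 0 < rv (ab y) b := by
    rw [h4 b]
    have e1 : t * (θ * ∑ i, G i) = θ * (t * ∑ i, G i) := by ring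
    linarith
  have h12 : b ∈ y := by
    have h13 : 0 < ab y b := by
      unfold rv at h11
      exact_mod_cast h11
    unfold ab at h13
    exact List.count_pos_iff.1 (by exact_mod_cast h13)
  obtain ⟨i, hi, he⟩ := List.mem_iff_getElem.1 h12
  rw [hylen] at hi
  refine ⟨k + i, by omega, by omega, by omega, ?_⟩
  rw [← he]
  simp [hy]

/-- covered letters in the images of overlapping edges -/
theorem cover2 {κ E Qc θ D : ℝ} (hκ : 1 ≤ κ) (hQc : 0 < Qc) (hE0 : 0 ≤ E) (hθ : 0 < θ)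
    (hD : 0 ≤ D) : ∃ (R : ℕ) (R₁ : ℝ), 0 ≤ R₁ ∧ ∀ Q : Fin (m+1) → List (Fin (m+1)),
      Blk κ E Qc Q → Freq θ Q → Gap (D + 1) R₁ Q → ∀ f : Fin (m+1) → ℝ, Cmp κ f →
      ∀ b a a' : Fin (m+1), ∀ v : Fin (m+1) → ℤ, nm (rv v) ≤ D → Overlap (ra f (inc Q)) a a' v →
      ∃ (k : ℕ) (hk : k < (Q a).length) (i₁ i₂ : ℕ), (Q a)[k] = b ∧ i₁ ≤ i₂ ∧
        i₂ ≤ (Q a').length ∧ i₂ ≤ i₁ + R ∧
        pa f (rv ((inc Q).mulVec v + ab ((Q a').take i₁) + -ab ((Q a).take k))) ≤ 0 ∧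
        f b ≤ pa f (rv ((inc Q).mulVec v + ab ((Q a').take i₂) + -ab ((Q a).take k))) ∧
        nm (rv ((inc Q).mulVec v + ab ((Q a').take i₁) + -ab ((Q a).take k))) ≤
          (1 + κ) * D + 2 * E + κ * κ := by
  obtain ⟨R₀, hR₀⟩ : ∃ R₀ : ℕ, 2 * E < θ * (R₀ - 2 * E) := by
    obtain ⟨R₀, h⟩ := exists_nat_gt (2 * E / θ + 2 * E)
    refine ⟨R₀, ?_⟩
    have h1 : 2 * E / θ < R₀ - 2 * E := by linarith
    rw [div_lt_iff₀ hθ] at h1
    linarith
  obtain ⟨R, hR⟩ := exists_nat_ge (2 * (κ * κ) + 1)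
  have hκ0 : 0 < κ := by linarith
  refine ⟨R, (R₀ + 3) * κ, by positivity, fun Q hQ hfreq hgap f hf b a a' v hv hO => ?_⟩
  have hone := hQ.one_le hQc
  have hf'' := hQ.cmp f hf.1
  rw [overlap_iff hf''.1] at hO
  obtain ⟨hO1, hO2⟩ := hO
  have hev : ∀ c : Fin (m+1), pa f (rv (ab (Q c))) = ra f (inc Q) c := by
    intro c
    rw [ab_subst, rv_mulVec, ← pa_ra, pa_rv_ev]
  have hmv : ∀ x : Fin (m+1) → ℤ, pa f (rv ((inc Q).mulVec x)) = pa (ra f (inc Q)) (rv x) := by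
    intro x
    rw [rv_mulVec, ← pa_ra]
  have hfs : f 0 ≤ ∑ i, f i := Finset.single_le_sum (fun i _ => (hf.1 i).le) (Finset.mem_univ 0)
  have hbig : ∀ x : Fin (m+1) → ℤ, nm (rv x) ≤ D + 1 → 0 < pa (ra f (inc Q)) (rv x) →
      ((R₀ : ℝ) + 3) * (κ * f 0) ≤ pa (ra f (inc Q)) (rv x) := by
    intro x hx hpos
    refine le_trans ?_ (hgap f hf.1 x hx hpos)
    calc ((R₀ : ℝ) + 3) * (κ * f 0) = ((R₀ : ℝ) + 3) * κ * f 0 := by ring
      _ ≤ _ := mul_le_mul_of_nonneg_left hfs (by positivity)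
  have hnev : ∀ c : Fin (m+1), nm (rv (ev c)) ≤ D + 1 := fun c => by rw [nm_ev]; linarith
  have b1 := hbig (ev a) (hnev a) (by rw [pa_rv_ev]; exact hf''.1 a)
  have b2 := hbig (ev a') (hnev a') (by rw [pa_rv_ev]; exact hf''.1 a')
  have b3 := hbig (v + ev a') (by
    rw [rv_add]
    refine (nm_add _ _).trans ?_
    rw [nm_ev]
    linarith) hO1
  have b4 := hbig (ev a - v) (by
    rw [sub_eq_add_neg, rv_add, rv_neg]
    refine (nm_add _ _).trans ?_
    rw [nm_ev, nm_neg]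
    linarith) hO2
  rw [pa_rv_ev] at b1 b2
  rw [pa_rv_add, pa_rv_ev] at b3
  rw [sub_eq_add_neg, pa_rv_add, pa_rv_ev, pa_rv_neg] at b4
  have hδ0 : 0 < f 0 / κ := div_pos (hf.1 0) hκ0
  have hδ : ∀ i, f 0 / κ ≤ f i := fun i => by
    rw [div_le_iff₀ hκ0]
    have := hf.2 0 i
    linarith
  have hΛ : ∀ i, f i ≤ κ * f 0 := fun i => hf.2 i 0
  obtain ⟨g, hg⟩ : ∃ g : Fin (m+1) → ℝ, g = fun _ => 1 := ⟨_, rfl⟩
  have hg0 : ∀ i, 0 < g i := fun i => by rw [hg]; exact one_pos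
  obtain ⟨G, hG⟩ : ∃ G, G = act (inc Q) g := ⟨_, rfl⟩
  have hG0 : ∀ i, 0 < G i := by rw [hG]; exact act_pos hone hg0
  have hGθ : ∀ b, θ * ∑ i, G i ≤ G b := by
    intro b
    rw [hG, hg]
    unfold act
    simp only [mul_one]
    rw [Finset.sum_comm, Finset.mul_sum]
    exact Finset.sum_le_sum fun j _ => hfreq b j
  have hpre : ∀ c j, nm (pj f G (rv (ab ((Q c).take j)))) ≤ E := by
    intro c j
    rw [hG]
    exact hQ.pre f hf g hg0 c j
  obtain ⟨k, hk, i₁, i₂, c1, c2, c3, c4, c5, c6, c7⟩ := cover_core hδ0 hδ hΛ (Q a) (Q a')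
    ((inc Q).mulVec v) b R₀
    (fun k hk => contains_letter2 hf hG0 hθ hGθ hR₀ (Q a) (hpre a) b k hk)
    (max 0 (pa (ra f (inc Q)) (rv v))) (min (ra f (inc Q) a) (pa (ra f (inc Q)) (rv v) +
      ra f (inc Q) a')) (le_max_left _ _) (by rw [hmv]; exact le_max_right _ _)
    (by rw [hev]; exact min_le_left _ _) (by rw [pa_rv_add, hmv, hev]; exact min_le_right _ _)
    (by
      rcases max_choice 0 (pa (ra f (inc Q)) (rv v)) with h1 | h1 <;>
      rcases min_choice (ra f (inc Q) a) (pa (ra f (inc Q)) (rv v) + ra f (inc Q) a') with h2 | h2 <;>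
      rw [h1, h2] <;> linarith) R (by
      refine le_trans (le_of_eq ?_) hR
      have := (hf.1 0).ne'
      field_simp)
  refine ⟨k, hk, i₁, i₂, c1, c2, c3, c4, c5, c7, ?_⟩
  obtain ⟨z, hz⟩ : ∃ z : Fin (m+1) → ℤ, z = (inc Q).mulVec v + ab ((Q a').take i₁) +
      -ab ((Q a).take k) := ⟨_, rfl⟩
  rw [← hz] at c5 c6 ⊢
  have hp := pa_pos hf.1 hG0
  have e1 : rv z = pj f G (rv z) + fun i => pa f (rv z) / pa f G * G i := by
    funext i
    simp [pj]
  have e2 : nm (fun i => pa f (rv z) / pa f G * G i) ≤ κ * κ := by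
    rw [nm_smul, abs_div, abs_of_pos hp, div_mul_eq_mul_div, div_le_iff₀ hp]
    have e3 : |pa f (rv z)| ≤ κ * f 0 := abs_le.2 ⟨c6, c5.trans (mul_nonneg hκ0.le (hf.1 0).le)⟩
    have e4 : f 0 * nm G ≤ κ * pa f G := by
      rw [nm_pos_eq hG0, Finset.mul_sum]
      unfold pa
      rw [Finset.mul_sum]
      refine Finset.sum_le_sum fun i _ => ?_
      have := mul_le_mul_of_nonneg_right (hf.2 0 i) (hG0 i).le
      linarith
    calc |pa f (rv z)| * nm G ≤ (κ * f 0) * nm G := mul_le_mul_of_nonneg_right e3 (nm_nonneg _)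
      _ = κ * (f 0 * nm G) := by ring
      _ ≤ κ * (κ * pa f G) := mul_le_mul_of_nonneg_left e4 hκ0.le
      _ = κ * κ * pa f G := by ring
  have e5 : nm (pj f G (rv z)) ≤ (1 + κ) * D + 2 * E := by
    have e6 : rv z = rv ((inc Q).mulVec v) + rv (ab ((Q a').take i₁)) - rv (ab ((Q a).take k)) := by
      rw [hz, rv_add, rv_add, rv_neg]
      abel
    rw [e6, pj_sub, pj_add, sub_eq_add_neg]
    refine (nm_add _ _).trans ?_
    rw [nm_neg]
    have e7 := nm_add (pj f G (rv ((inc Q).mulVec v))) (pj f G (rv (ab ((Q a').take i₁))))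
    have e8 : nm (pj f G (rv ((inc Q).mulVec v))) ≤ (1 + κ) * D := by
      rw [hG, rv_mulVec, ← pj_comm]
      have e9 := hQ.con f hf.1 (pj (ra f (inc Q)) g (rv v)) (pa_pj _ _ _ (pa_pos hf''.1 hg0).ne')
      have e10 := nm_pj hf'' hg0 (rv v)
      have e11 := nm_nonneg (pj (ra f (inc Q)) g (rv v))
      have e12 : (1 + κ) * nm (rv v) ≤ (1 + κ) * D := mul_le_mul_of_nonneg_left hv (by linarith)
      linarith
    linarith [hpre a' i₁, hpre a k]
  rw [e1]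
  refine (nm_add _ _).trans ?_
  linarith

/-- the images of the letter `b` and of short words which cover it have a common edge, for all
positive weights -/
def CovF (S : Fin (m+1) → List (Fin (m+1))) (b : Fin (m+1)) (D : ℝ) (R : ℕ) : Prop :=
  ∀ f : Fin (m+1) → ℝ, (∀ i, 0 < f i) → ∀ (z : Fin (m+1) → ℤ) (w : List (Fin (m+1))),
    pa (ra f (inc S)) (rv z) ≤ 0 → ra f (inc S) b ≤ pa (ra f (inc S)) (rv (z + ab w)) →
    nm (rv z) ≤ D → w.length ≤ R →
    ∃ e, e ∈ edges 0 (S b) ∧ e ∈ edges ((inc S).mulVec z) (ext S w)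

/-- coincidences after two steps -/
theorem hb_two {κ E Qc θ D : ℝ} (hκ : 1 ≤ κ) (hQc : 0 < Qc) (hE0 : 0 ≤ E) (hθ : 0 < θ)
    (hD : 0 ≤ D) : ∃ (R : ℕ) (R₁ : ℝ), 0 ≤ R₁ ∧ ∀ Q : Fin (m+1) → List (Fin (m+1)),
      Blk κ E Qc Q → Freq θ Q → Gap (D + 1) R₁ Q → ∀ τ : Fin (m+1) → List (Fin (m+1)),
      Blk κ E Qc τ → ∀ b, CovF τ b ((1 + κ) * D + 2 * E + κ * κ) R → Hb D (comp τ Q) := by
  obtain ⟨R, R₁, hR₁, hcov⟩ := cover2 (m := m) (κ := κ) (E := E) (Qc := Qc) (θ := θ) (D := D)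
    hκ hQc hE0 hθ hD
  refine ⟨R, R₁, hR₁, fun Q hQ hfreq hgap τ hτ b hS f hf a a' v hv hO => ?_⟩
  rw [inc_comp, ra_mul] at hO
  obtain ⟨k, hk, i₁, i₂, hkb, h12, hi2, hR, c1, c2, c3⟩ := hcov Q hQ hfreq hgap _ (hτ.cmp f hf)
    b a a' v hv hO
  obtain ⟨w, hw⟩ : ∃ w, w = ((Q a').take i₂).drop i₁ := ⟨_, rfl⟩
  obtain ⟨z, hz⟩ : ∃ z : Fin (m+1) → ℤ, z = (inc Q).mulVec v + ab ((Q a').take i₁) +
      -ab ((Q a).take k) := ⟨_, rfl⟩
  have h1 : (Q a').take i₂ = (Q a').take i₁ ++ w := by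
    have h2 := List.take_append_drop i₁ ((Q a').take i₂)
    rw [List.take_take, min_eq_left h12] at h2
    rw [hw]
    exact h2.symm
  have h2 : Q a' = (Q a').take i₁ ++ (w ++ (Q a').drop i₂) := by
    rw [← List.append_assoc, ← h1, List.take_append_drop]
  obtain ⟨e, he1, he2⟩ := hS f hf z w (by rw [hz]; exact c1) (by
    have e1 : z + ab w = (inc Q).mulVec v + ab ((Q a').take i₂) + -ab ((Q a).take k) := by
      rw [h1, ab_append, hz]
      abel
    rw [e1]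
    exact c2) (by rw [hz]; exact c3) (by
    rw [hw, List.length_drop, List.length_take]
    omega)
  refine ⟨(e.1 + (inc τ).mulVec (ab ((Q a).take k)), e.2), ?_, ?_⟩
  · refine edges_ext τ 0 (Q a) k hk ?_
    rw [hkb]
    rw [edges_translate]
    exact List.mem_map.2 ⟨e, he1, rfl⟩
  · have t1 : ((e.1 + (inc τ).mulVec (ab ((Q a).take k)), e.2) : (Fin (m+1) → ℤ) × Fin (m+1)) ∈
        edges ((inc τ).mulVec z + (inc τ).mulVec (ab ((Q a).take k))) (ext τ w) := by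
      rw [edges_translate]
      exact List.mem_map.2 ⟨e, he2, rfl⟩
    have t2 : (inc τ).mulVec z + (inc τ).mulVec (ab ((Q a).take k)) =
        (inc (comp τ Q)).mulVec v + ab (ext τ ((Q a').take i₁)) := by
      rw [← Matrix.mulVec_add, hz, neg_add_cancel_right, Matrix.mulVec_add, ab_ext, inc_comp,
        Matrix.mulVec_mulVec]
    rw [t2] at t1
    have t3 : comp τ Q a' = ext τ ((Q a').take i₁) ++ (ext τ w ++ ext τ ((Q a').drop i₂)) := by
      change ext τ (Q a') = _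
      conv_lhs => rw [h2]
      rw [ext_append, ext_append]
    rw [t3, edges_append, edges_append, List.mem_append, List.mem_append]
    exact Or.inr (Or.inl t1)

/-- a common edge of two paths gives a common edge of the images -/
theorem persist_words {ρ : Fin (m+1) → List (Fin (m+1))} (hρ : ∀ a, ρ a ≠ [])
    {y y' : Fin (m+1) → ℤ} {w w' : List (Fin (m+1))}
    (h : ∃ e, e ∈ edges y w ∧ e ∈ edges y' w') :
    ∃ e, e ∈ edges ((inc ρ).mulVec y) (ext ρ w) ∧ e ∈ edges ((inc ρ).mulVec y') (ext ρ w') := by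
  obtain ⟨e, he1, he2⟩ := h
  obtain ⟨c, l, hcl⟩ := List.exists_cons_of_ne_nil (hρ e.2)
  have key : ∀ (x : Fin (m+1) → ℤ) (u : List (Fin (m+1))), e ∈ edges x u →
      ((inc ρ).mulVec e.1, c) ∈ edges ((inc ρ).mulVec x) (ext ρ u) := by
    intro x u hu
    obtain ⟨i, hi, he⟩ := mem_edges.1 hu
    refine edges_ext ρ _ u i hi ?_
    have e1 : e.1 = x + ab (u.take i) := by rw [he]
    have e2 : e.2 = u[i] := by rw [he]
    rw [← e2, ← Matrix.mulVec_add, ← e1, hcl]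
    simp [edges]
  exact ⟨_, key y w he1, key y' w' he2⟩

theorem covF_of_cov {M : Matrix (Fin (m+1)) (Fin (m+1)) ℤ} (P : PD M) (D : ℝ) (R : ℕ) :
    ∃ K : ℕ, ∀ k ≥ K, ∀ ρ : Fin (m+1) → List (Fin (m+1)), (inc ρ).det ≠ 0 →
      ∀ S : Fin (m+1) → List (Fin (m+1)), inc S = M ^ k → ∀ b,
      Cov P S b (P.c * (2 * D)) R → CovF (comp ρ S) b D R := by
  obtain ⟨K, hK⟩ := gap_all P (D + R + 1) 1
  refine ⟨K, fun k hk ρ hdet S hS b hcov f hf z w h1 h2 h3 h4 => ?_⟩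
  have hh := col_pos ρ hdet hf
  rw [inc_comp, hS, ra_mul] at h1 h2
  have hR0 : (0 : ℝ) ≤ R := Nat.cast_nonneg R
  have hsum : 0 < ∑ i, ra f (inc ρ) i := Finset.sum_pos (fun i _ => hh i) Finset.univ_nonempty
  have g1 : P.ht z ≤ 0 := by
    by_contra hcon
    push Not at hcon
    have := hK k hk z (by linarith) hcon _ hh
    linarith
  have g2 : P.ell b ≤ P.ht (z + ab w) := by
    by_contra hcon
    push Not at hcon
    have e1 : 0 < pa P.ell (rv (ev b + -(z + ab w))) := by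
      rw [pa_rv_add, pa_rv_neg, pa_rv_ev]
      have : pa P.ell (rv (z + ab w)) = P.ht (z + ab w) := rfl
      rw [this]
      linarith
    have e2 : nm (rv (ev b + -(z + ab w))) ≤ D + R + 1 := by
      rw [rv_add, rv_neg, rv_add]
      refine (nm_add _ _).trans ?_
      rw [nm_ev, nm_neg]
      have e3 := nm_add (rv z) (rv (ab w))
      rw [nm_rv_ab] at e3
      have e4 : (w.length : ℝ) ≤ R := by exact_mod_cast h4
      linarith
    have e5 := hK k hk _ e2 e1 _ hh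
    rw [pa_rv_add, pa_rv_neg, pa_rv_ev] at e5
    linarith
  have g3 : P.N (rv z) ≤ P.c * (2 * D) :=
    (N_le_nm P _).trans (mul_le_mul_of_nonneg_left (by linarith) P.c_pos.le)
  have h5 := hcov z w g1 g2 g3 h4
  have h6 := persist_words (ne_nil_of_rpos hh) h5
  rw [Matrix.mulVec_zero] at h6
  obtain ⟨e, he1, he2⟩ := h6
  refine ⟨e, he1, ?_⟩
  rw [inc_comp, ← Matrix.mulVec_mulVec, ext_comp]
  exact he2

end Pool.Agent.K9h94.SB
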