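import Pool.Agent.K9h94.SB.Cover2

/-!
Smoothed analysis of the Pisot substitution conjecture: noise on a part of the blocks, several
matrices.
-/

set_option autoImplicit false

namespace Pool.Agent.K9h94.SB

open Pool.Agent.H812R2.PI Pool.Agent.TH100.Pisot Pool.Agent.Y480.PI Pool.Agent.K9h94.SA
open Pool.Agent.R889.PZ (GCC Coinc Good Blk Hb TubeBlock family_consts list_good2 list_pisot
  tube_det coinc_iff inc_nonneg)
open scoped BigOperators

variable {m : ℕ}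

/-- a substitution with coincidences after two steps absorbs in all compositions -/
theorem absorbs_nc {ι : Type} [Fintype ι] (M : ι → Matrix (Fin (m+1)) (Fin (m+1)) ℤ)
    (hM : ∀ i, PisotMat (M i)) (R : ∀ i, PD (M i)) (B : ℝ) (T : ℕ) :
    ∃ (K : ℕ) (D : ι → ℝ) (Rr : ℕ), ∀ i, ∀ n ≥ K, ∀ S ∈ SubSet (R i).u (M i ^ n) B, ∀ b,
      Cov (R i) S b (D i) Rr → Absorbs M (fun i => (R i).u) B T K S := by
  classical
  obtain ⟨κ, E, Q, hκ, hE, hQ0, hQ, K0, hK0⟩ := family_consts M R T B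
  obtain ⟨Dt, hDt⟩ : ∃ Dt : ℝ, Dt = (16 * (2 + (1 + κ) * ((m:ℝ) + 1)) ^ 2 + 4) *
      (2 * (2 * E)) + κ := ⟨_, rfl⟩
  have hE0 : 0 ≤ E := by linarith
  have hDt0 : 0 ≤ Dt := by
    rw [hDt]
    have h1 := sq_nonneg (2 + (1 + κ) * ((m:ℝ) + 1))
    have h2 : 0 ≤ (16 * (2 + (1 + κ) * ((m:ℝ) + 1)) ^ 2 + 4) * (2 * (2 * E)) :=
      mul_nonneg (by linarith) (by linarith)
    linarith
  have hfr := fun i => freq_block (R i) T
  choose θi hθi Kθ hKθ using hfr
  obtain ⟨θ, hθ, hθle⟩ : ∃ θ : ℝ, 0 < θ ∧ ∀ i, θ ≤ θi i := by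
    have hs : 0 ≤ ∑ i, (θi i)⁻¹ := Finset.sum_nonneg fun i _ => (inv_pos.2 (hθi i)).le
    refine ⟨(1 + ∑ i, (θi i)⁻¹)⁻¹, by positivity, fun i => ?_⟩
    have h1 := Finset.single_le_sum (f := fun i => (θi i)⁻¹)
      (fun i _ => (inv_pos.2 (hθi i)).le) (Finset.mem_univ i)
    exact inv_le_of_inv_le₀ (hθi i) (by linarith)
  obtain ⟨Rr, R₁, hR₁, htwo⟩ := hb_two (m := m) (κ := κ) (E := E) (Qc := Q) (θ := θ) (D := Dt)
    hκ hQ0 hE0 hθ hDt0
  have hgb := fun i => gap_block (R i) (Dt + 1) R₁ hR₁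
  choose Kg hKg using hgb
  have hcb := fun i => covF_of_cov (R i) ((1 + κ) * Dt + 2 * E + κ * κ) Rr
  choose Kc hKc using hcb
  refine ⟨K0 + ∑ i, Kθ i + ∑ i, Kg i + ∑ i, Kc i,
    fun i => (R i).c * (2 * ((1 + κ) * Dt + 2 * E + κ * κ)), Rr,
    fun i n hn S hS b hcov ρ hdet hT l₁ l₂ hl => ?_⟩
  have hsl : ∀ (F : ι → ℕ) (i : ι), F i ≤ ∑ i, F i := fun F i =>
    Finset.single_le_sum (f := F) (fun i _ => Nat.zero_le _) (Finset.mem_univ i)
  -- the properties of the tube blocks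
  have hprop : ∀ τ, TubeBlock M (fun i => (R i).u) B T
      (K0 + ∑ i, Kθ i + ∑ i, Kg i + ∑ i, Kc i) τ →
      Blk κ E Q τ ∧ Freq θ τ ∧ Gap (Dt + 1) R₁ τ := by
    rintro τ ⟨ρ', τ', rfl, hdet1, hT1, j, k, hk, hj⟩
    have hdet1' : (inc ρ').det ≠ 0 := by
      rcases hdet1 with h | h <;> rw [h] <;> norm_num
    have h1 := hsl Kθ j
    have h2 := hsl Kg j
    refine ⟨hK0 _ ⟨ρ', τ', rfl, hdet1, hT1, j, k, by omega, hj⟩, ?_, ?_⟩
    · exact (hKθ j k (by omega) ρ' hdet1' hT1 τ' hj.1).mono (hθle j)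
    · exact hKg j k (by omega) ρ' hdet1' τ' hj.1
  obtain ⟨l, hldef⟩ : ∃ l, l = l₁ ++ [comp ρ S] ++ l₂ := ⟨_, rfl⟩
  have hmem : ∀ τ' ∈ l, TubeBlock M (fun i => (R i).u) B T
      (K0 + ∑ i, Kθ i + ∑ i, Kg i + ∑ i, Kc i) τ' := by
    intro τ' h
    rw [hldef, List.mem_append, List.mem_append] at h
    rcases h with (h | h) | h
    · exact hl τ' (List.mem_append_left _ h)
    · rw [List.mem_singleton.1 h]
      exact ⟨ρ, S, rfl, hdet, hT, i, n, hn, hS⟩
    · exact hl τ' (List.mem_append_right _ h)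
  have hmem2 : ∀ τ' ∈ l₂, TubeBlock M (fun i => (R i).u) B T
      (K0 + ∑ i, Kθ i + ∑ i, Kg i + ∑ i, Kc i) τ' := fun τ' h => hl τ' (List.mem_append_right _ h)
  have hlne : l ≠ [] := by rw [hldef]; simp
  obtain ⟨τ₂, l', hl'⟩ : ∃ τ₂ l', l₂ ++ l = τ₂ :: l' :=
    List.exists_cons_of_ne_nil (by simp [hlne])
  have hmem3 : ∀ τ' ∈ τ₂ :: l', TubeBlock M (fun i => (R i).u) B T
      (K0 + ∑ i, Kθ i + ∑ i, Kg i + ∑ i, Kc i) τ' := by
    intro τ' h
    rw [← hl', List.mem_append] at h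
    rcases h with h | h
    · exact hmem2 τ' h
    · exact hmem τ' h
  obtain ⟨hτ2b, hτ2f, hτ2g⟩ := hprop τ₂ (hmem3 τ₂ (List.mem_cons_self ..))
  have hcS : TubeBlock M (fun i => (R i).u) B T
      (K0 + ∑ i, Kθ i + ∑ i, Kg i + ∑ i, Kc i) (comp ρ S) := ⟨ρ, S, rfl, hdet, hT, i, n, hn, hS⟩
  have hτb := (hprop _ hcS).1
  have hdet' : (inc ρ).det ≠ 0 := by
    rcases hdet with h | h <;> rw [h] <;> norm_num
  have hci := hsl Kc i
  have hcovF : CovF (comp ρ S) b ((1 + κ) * Dt + 2 * E + κ * κ) Rr :=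
    hKc i n (by omega) ρ hdet' S hS.1 b hcov
  have hHb : Hb Dt (comp (comp ρ S) τ₂) := htwo τ₂ hτ2b hτ2f hτ2g (comp ρ S) hτb b hcovF
  have hL : comp (compList l) (compList l) = compList (l₁ ++ [comp (comp ρ S) τ₂] ++ l') := by
    rw [← compList_append]
    have e1 : l ++ l = l₁ ++ (comp ρ S :: τ₂ :: l') := by
      rw [← hl']
      conv_lhs => rw [hldef]
      rw [hldef]
      simp
    have e2 : l₁ ++ [comp (comp ρ S) τ₂] ++ l' = l₁ ++ (comp (comp ρ S) τ₂ :: l') := by simp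
    rw [e1, e2, compList_append, compList_append]
    simp only [compList]
    rw [comp_assoc (comp ρ S) τ₂]
  have hbL : ∀ τ' ∈ l₁ ++ [comp (comp ρ S) τ₂] ++ l', Blk κ (2 * E) Q τ' := by
    intro τ' h
    rw [List.mem_append, List.mem_append] at h
    rcases h with (h | h) | h
    · exact blk_mono (by linarith) (hprop τ' (hl τ' (List.mem_append_left _ h))).1
    · rw [List.mem_singleton.1 h]
      exact blk_comp hQ0 hE hτb hτ2b
    · exact blk_mono (by linarith) (hprop τ' (hmem3 τ' (List.mem_cons_of_mem _ h))).1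
  have hpis : PisotMat (inc (compList l)) :=
    list_pisot hQ hκ _ (fun τ' h => (hprop τ' (hmem τ' h)).1) hlne
      fun τ' h => tube_det hM (hmem τ' h)
  have hmemll : ∀ τ' ∈ l ++ l, TubeBlock M (fun i => (R i).u) B T
      (K0 + ∑ i, Kθ i + ∑ i, Kg i + ∑ i, Kc i) τ' := by
    intro τ' h
    rcases List.mem_append.1 h with h | h <;> exact hmem τ' h
  have hpisL : PisotMat (inc (compList (l₁ ++ [comp (comp ρ S) τ₂] ++ l'))) := by
    rw [← hL, ← compList_append]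
    exact list_pisot hQ hκ _ (fun τ' h => (hprop τ' (hmemll τ' h)).1) (by simp [hlne])
      fun τ' h => tube_det hM (hmemll τ' h)
  obtain ⟨lam', u', hlam', hu', hs'⟩ := exists_u _ (inc_nonneg _) hpis
  obtain ⟨P', -, -⟩ := exists_PD _ (inc_nonneg _) hpis lam' hlam' u' hu' hs'
  have hincL : (inc (compList l)) ^ 2 = inc (compList (l₁ ++ [comp (comp ρ S) τ₂] ++ l')) := by
    rw [← hL, inc_comp, pow_two]
  have hkey : ∀ (A : Matrix (Fin (m+1)) (Fin (m+1)) ℤ),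
      A = inc (compList (l₁ ++ [comp (comp ρ S) τ₂] ++ l')) → ∀ Q' : PD A,
      ∃ Q'' : PD (inc (compList (l₁ ++ [comp (comp ρ S) τ₂] ++ l'))), Q''.ell = Q'.ell := by
    rintro _ rfl Q'
    exact ⟨Q', rfl⟩
  obtain ⟨P'', hP''⟩ := hkey _ hincL (P'.pow 2 (by norm_num))
  have hell : P''.ell = P'.ell := hP''
  have hgood := list_good2 hQ0 (by linarith : 1 + κ ≤ 2 * E) l₁ l' (comp (comp ρ S) τ₂) hbL
    (by rw [← hDt]; exact hHb) hpisL P''
  rw [hell, ← hL] at hgood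
  obtain ⟨-, hg1, hg2⟩ := hgood
  have hdetl : (inc (compList l)).det ≠ 0 := by
    rcases hpis.2.1 with h | h <;> rw [h] <;> norm_num
  rw [← hldef]
  exact ⟨hpis, (coinc_iff P').2 (gcc_comp_self _ _ hg1), semi_comp_self _ hdetl hg2⟩

/-- final form -/
theorem main_nc {ι : Type} [Fintype ι] (M : ι → Matrix (Fin (m+1)) (Fin (m+1)) ℤ)
    (hnn : ∀ i a b, 0 ≤ M i a b) (hM : ∀ i, PisotMat (M i)) (lam : ι → ℝ) (hlam : ∀ i, 1 < lam i)
    (u : ι → Fin (m+1) → ℝ) (hu : ∀ i a, ∑ b, (M i a b : ℝ) * u i b = lam i * u i a)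
    (husum : ∀ i, ∑ a, u i a = 1) :
    ∃ B₀ : ℝ, ∀ B ≥ B₀,
      (∀ i, ∀ l : List (Fin (m+1) → List (Fin (m+1))), (∀ τ ∈ l, inc τ = M i) →
        compList l ∈ SubSet (u i) (M i ^ l.length) B) ∧
      ∃ K₀ : ℕ, ∀ L : ℕ, K₀ ≤ L → ∀ T : ℕ, ∃ (K : ℕ) (C c : ℝ), 0 < C ∧ 0 < c ∧
      ∀ i, ∀ n ≥ K, ∀ σ ∈ SubSet (u i) (M i ^ n) B,
      ∀ W : Fin (m+1) → List (List (Fin (m+1))), (∀ a, (W a).flatten = σ a) →
      (∀ a, ∀ w ∈ W a, K₀ ≤ w.length ∧ w.length ≤ L) →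
      ∀ N Z : Finset (Idx W), (Z.card : ℝ) ≤ c * N.card →
      ∀ κ ε : ℝ, 0 ≤ κ → κ ≤ 1 → 0 ≤ ε → ε ≤ 1 →
      ∀ μ : (Idx W → List (Fin (m+1))) → ℝ, IsNoiseOn W N Z κ ε μ →
      prob W μ (fun S => ¬ Absorbs M u B T K S) ≤ C * Real.exp (-(c * κ * ε * N.card)) := by
  classical
  have hall : ∀ i, ∃ R : PD (M i), R.u = u i ∧ R.lam = lam i := fun i => by
    obtain ⟨R, h, h'⟩ := exists_PD (M i) (hnn i) (hM i) (lam i) (hlam i) (u i) (hu i) (husum i)
    exact ⟨R, h, h'⟩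
  choose R hR hRl using hall
  have hR' : u = fun i => (R i).u := (funext hR).symm
  have hRl' : lam = fun i => (R i).lam := (funext hRl).symm
  subst hR'
  subst hRl'
  have hall2 := fun i => comp_mem (hnn i) (R i)
  choose B1 hB1 using hall2
  refine ⟨∑ i, |B1 i|, fun B hB => ⟨fun i l hl => ?_, ?_⟩⟩
  · have := Finset.single_le_sum (f := fun i => |B1 i|) (fun i _ => abs_nonneg _)
      (Finset.mem_univ i)
    exact hB1 i B ((le_abs_self _).trans (this.trans hB)) l hl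
  have hB0 : 0 ≤ B := le_trans (Finset.sum_nonneg fun i _ => abs_nonneg _) hB
  have hall3 := fun i => cov_prob (R i) B hB0
  choose H0 hH0 hhit using hall3
  have hsl : ∀ (F : ι → ℕ) (i : ι), F i ≤ ∑ i, F i := fun F i =>
    Finset.single_le_sum (f := F) (fun i _ => Nat.zero_le _) (Finset.mem_univ i)
  refine ⟨∑ i, H0 i, fun L hL T => ?_⟩
  obtain ⟨B', hB'⟩ : ∃ B' : ℝ, B' = 2 * B + 2 * (((m + 1 : ℕ) : ℝ) + 1) * L := ⟨_, rfl⟩
  have hBB' : B ≤ B' := by
    have : (0 : ℝ) ≤ 2 * (((m + 1 : ℕ) : ℝ) + 1) * L := by positivity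
    rw [hB']
    linarith
  obtain ⟨K1, D, Rr, hD⟩ := absorbs_nc M hM R B' T
  have hall4 := fun i => hhit i L ((hsl H0 i).trans hL) (D i) Rr
  choose C c hC hc n₀ hprob using hall4
  obtain ⟨c0, hc0, hc0i⟩ : ∃ c0 : ℝ, 0 < c0 ∧ ∀ i, c0 ≤ c i := by
    have hs : 0 ≤ ∑ i, (c i)⁻¹ := Finset.sum_nonneg fun i _ => (inv_pos.2 (hc i)).le
    refine ⟨(1 + ∑ i, (c i)⁻¹)⁻¹, by positivity, fun i => ?_⟩
    have h1 := Finset.single_le_sum (f := fun i => (c i)⁻¹)
      (fun i _ => (inv_pos.2 (hc i)).le) (Finset.mem_univ i)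
    exact inv_le_of_inv_le₀ (hc i) (by linarith)
  have hCi : ∀ i, C i ≤ 1 + ∑ i, C i := by
    intro i
    have := Finset.single_le_sum (f := C) (fun i _ => (hC i).le) (Finset.mem_univ i)
    linarith
  have hCs : 0 ≤ ∑ i, C i := Finset.sum_nonneg fun i _ => (hC i).le
  refine ⟨K1 + ∑ i, n₀ i + 1, 1 + ∑ i, C i, c0 / 2, by linarith, by positivity, ?_⟩
  intro i n hn σ hσ W hW hWL N Z hZ κ ε hκ hκ1 hε hε1 μ hμ
  have hni := hsl n₀ i
  have h1 := hprob i n (by omega) (by omega) σ hσ W hW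
    (fun a w hw => ⟨(hsl H0 i).trans (hWL a w hw).1, (hWL a w hw).2⟩) N Z κ ε hκ hκ1 hε hε1 μ hμ
  refine (prob_mono' hμ.nonneg fun x hx hnot => ?_).trans (h1.trans ?_)
  · rintro ⟨b, hb⟩
    apply hnot
    intro ρ hdet hT l₁ l₂ hl
    have hS : glue W x ∈ SubSet (R i).u (M i ^ n) B' := by
      rw [hB']
      exact glue_mem (R i).u_pos (R i).u_sum hB0 hσ hW (fun a w hw => (hWL a w hw).2) hx
    exact hD i n (by omega) _ hS b hb ρ hdet hT l₁ l₂
      (fun τ' h => tube_mono hB0 hBB' (by omega) (hl τ' h))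
  · refine mul_le_mul (hCi i) ?_ (Real.exp_pos _).le (by linarith)
    rw [Real.exp_le_exp, neg_le_neg_iff]
    have h3 : c0 / 2 * N.card ≤ c i * N.card - Z.card := by
      have := mul_le_mul_of_nonneg_right (hc0i i) (Nat.cast_nonneg (α := ℝ) N.card)
      linarith
    have h4 := mul_le_mul_of_nonneg_left h3 (mul_nonneg hκ hε)
    calc c0 / 2 * κ * ε * N.card = κ * ε * (c0 / 2 * N.card) := by ring
      _ ≤ _ := h4

/-! ### examples of noise -/

section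
variable {d : ℕ} {W : Fin d → List (List (Fin d))}

theorem product_noise_on {N Z : Finset (Idx W)} {κ ε : ℝ} {p : Idx W → List (Fin d) → ℝ}
    (h0 : ∀ i, ∀ w ∈ rearr W i, 0 ≤ p i w) (h1 : ∀ i, ∑ w ∈ rearr W i, p i w = 1)
    (h2 : ∀ i, i ∉ Z → κ ≤ p i (blk W i)) (h3 : ∀ i, i ∈ N → ∀ w ∈ rearr W i, ε ≤ p i w) :
    IsNoiseOn W N Z κ ε (fun x => ∏ i, p i (x i)) := by
  classical
  have hupd : ∀ x : Idx W → List (Fin d), ∀ i w, ∏ k, p k (Function.update x i w k) =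
      p i w * ∏ k ∈ Finset.univ.erase i, p k (x k) := by
    intro x i w
    rw [← Finset.mul_prod_erase Finset.univ _ (Finset.mem_univ i), Function.update_self]
    congr 1
    refine Finset.prod_congr rfl fun k hk => ?_
    rw [Function.update_of_ne (Finset.ne_of_mem_erase hk)]
  have hrest : ∀ x ∈ outcomes W, ∀ i, 0 ≤ ∏ k ∈ Finset.univ.erase i, p k (x k) := by
    intro x hx i
    exact Finset.prod_nonneg fun k _ => h0 k (x k) (mem_rearr.2 (mem_outcomes.1 hx k))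
  have hsum : ∀ x : Idx W → List (Fin d), ∀ i, ∑ w ∈ rearr W i,
      ∏ k, p k (Function.update x i w k) = ∏ k ∈ Finset.univ.erase i, p k (x k) := by
    intro x i
    rw [Finset.sum_congr rfl fun w _ => hupd x i w, ← Finset.sum_mul, h1, one_mul]
  refine ⟨fun x hx => ?_, ?_, fun i hi x hx => ?_, fun i hi x hx w hw => ?_⟩
  · exact Finset.prod_nonneg fun k _ => h0 k (x k) (mem_rearr.2 (mem_outcomes.1 hx k))
  · change ∑ x ∈ Fintype.piFinset (rearr W), ∏ i, p i (x i) = 1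
    rw [← Finset.prod_univ_sum]
    exact Finset.prod_eq_one fun i _ => h1 i
  · rw [hsum, hupd]
    exact mul_le_mul_of_nonneg_right (h2 i hi) (hrest x hx i)
  · rw [hsum, hupd]
    exact mul_le_mul_of_nonneg_right (h3 i hi w hw) (hrest x hx i)

open Classical in
/-- lazy shuffling of the blocks in `N`: independently, each block in `N` is left unchanged with
probability `1 - δ`, and with probability `δ` it is replaced by a uniformly random rearrangement of its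
letters; the blocks outside of `N` are unchanged -/
noncomputable def lazyOn (W : Fin d → List (List (Fin d))) (N : Finset (Idx W)) (δ : ℝ)
    (x : Idx W → List (Fin d)) : ℝ :=
  ∏ i, (if i ∈ N then (if x i = blk W i then 1 - δ else 0) + δ / (rearr W i).card
    else if x i = blk W i then 1 else 0)

theorem lazy_noise_on {L : ℕ} (hL : ∀ a, ∀ w ∈ W a, w.length ≤ L) (N : Finset (Idx W)) {δ : ℝ}
    (h0 : 0 ≤ δ) (h1 : δ ≤ 1) : IsNoiseOn W N ∅ (1 - δ) (δ / L.factorial) (lazyOn W N δ) := by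
  classical
  have hpos : ∀ i, (0 : ℝ) < (rearr W i).card := fun i => by exact_mod_cast rearr_card_pos i
  have hLf : (0 : ℝ) < L.factorial := by exact_mod_cast Nat.factorial_pos L
  have hblk : ∀ i : Idx W, (blk W i).length ≤ L := fun i => hL i.1 _ (List.getElem_mem _)
  have hle : ∀ i, δ / L.factorial ≤ δ / (rearr W i).card := by
    intro i
    apply div_le_div_of_nonneg_left h0 (hpos i)
    exact_mod_cast rearr_card_le i (hblk i)
  refine product_noise_on (p := fun i w => if i ∈ N then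
    (if w = blk W i then 1 - δ else 0) + δ / (rearr W i).card
      else if w = blk W i then 1 else 0) ?_ ?_ ?_ ?_
  · intro i w _
    have := div_nonneg h0 (hpos i).le
    split_ifs <;> linarith
  · intro i
    by_cases hi : i ∈ N
    · simp only [if_pos hi]
      rw [Finset.sum_add_distrib, Finset.sum_const, nsmul_eq_mul, Finset.sum_ite_eq',
        if_pos (mem_rearr.2 (List.Perm.refl _)), mul_div_cancel₀ _ (hpos i).ne']
      ring
    · simp only [if_neg hi]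
      rw [Finset.sum_ite_eq', if_pos (mem_rearr.2 (List.Perm.refl _))]
  · intro i _
    have := div_nonneg h0 (hpos i).le
    simp only [if_true]
    split_ifs <;> linarith
  · intro i hi w _
    simp only [if_pos hi]
    refine (hle i).trans ?_
    split_ifs <;> linarith

theorem lazyOn_eq_zero {N : Finset (Idx W)} {δ : ℝ} {x : Idx W → List (Fin d)} {i : Idx W}
    (hi : i ∉ N) (hx : x i ≠ blk W i) : lazyOn W N δ x = 0 := by
  unfold lazyOn
  refine Finset.prod_eq_zero (Finset.mem_univ i) ?_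
  rw [if_neg hi, if_neg hx]

theorem prob_eq_sum {μ : (Idx W → List (Fin d)) → ℝ} {E : (Fin d → List (Fin d)) → Prop}
    (h : ∀ x ∈ outcomes W, μ x ≠ 0 → E (glue W x)) : prob W μ E = ∑ x ∈ outcomes W, μ x := by
  classical
  unfold prob
  refine Finset.sum_subset (fun x hx => (Finset.mem_filter.1 hx).1) fun x hx hxn => ?_
  by_contra hne
  exact hxn (Finset.mem_filter.2 ⟨hx, h x hx hne⟩)

/-- existence from a probability -/
theorem exists_of_prob {L : ℕ} (hL : ∀ a, ∀ w ∈ W a, w.length ≤ L) (N : Finset (Idx W))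
    {E : (Fin d → List (Fin d)) → Prop} (h : prob W (lazyOn W N (1 / 2)) (fun S => ¬ E S) < 1) :
    ∃ x ∈ outcomes W, (∀ i, i ∉ N → x i = blk W i) ∧ E (glue W x) := by
  classical
  by_contra hcon
  push Not at hcon
  have h1 := lazy_noise_on hL N (δ := 1 / 2) (by norm_num) (by norm_num)
  have h2 : prob W (lazyOn W N (1 / 2)) (fun S => ¬ E S) = 1 := by
    refine (prob_eq_sum fun x hx hne => hcon x hx fun i hi => ?_).trans h1.sum_one
    by_contra hxi
    exact hne (lazyOn_eq_zero hi hxi)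
  rw [h2] at h
  exact lt_irrefl _ h

end

/-- the complete statement -/
theorem main_all {ι : Type} [Fintype ι] (M : ι → Matrix (Fin (m+1)) (Fin (m+1)) ℤ)
    (hnn : ∀ i a b, 0 ≤ M i a b) (hM : ∀ i, PisotMat (M i)) (lam : ι → ℝ) (hlam : ∀ i, 1 < lam i)
    (u : ι → Fin (m+1) → ℝ) (hu : ∀ i a, ∑ b, (M i a b : ℝ) * u i b = lam i * u i a)
    (husum : ∀ i, ∑ a, u i a = 1) :
    ∃ B₀ : ℝ, ∀ B ≥ B₀,
      (∀ i, ∀ l : List (Fin (m+1) → List (Fin (m+1))), (∀ τ ∈ l, inc τ = M i) →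
        compList l ∈ SubSet (u i) (M i ^ l.length) B) ∧
      ∃ K₀ : ℕ, ∀ L : ℕ, K₀ ≤ L → ∀ T : ℕ, ∃ (K A : ℕ) (C c : ℝ), 0 < C ∧ 0 < c ∧
      ∀ i, ∀ n ≥ K, ∀ σ ∈ SubSet (u i) (M i ^ n) B,
      ∀ W : Fin (m+1) → List (List (Fin (m+1))), (∀ a, (W a).flatten = σ a) →
      (∀ a, ∀ w ∈ W a, K₀ ≤ w.length ∧ w.length ≤ L) →
      (∀ N : Finset (Idx W), A ≤ N.card → ∃ x ∈ outcomes W, (∀ j, j ∉ N → x j = blk W j) ∧
        Absorbs M u B T K (glue W x)) ∧
      ∀ N Z : Finset (Idx W), (Z.card : ℝ) ≤ c * N.card →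
      ∀ κ ε : ℝ, 0 ≤ κ → κ ≤ 1 → 0 ≤ ε → ε ≤ 1 →
      ∀ μ : (Idx W → List (Fin (m+1))) → ℝ, IsNoiseOn W N Z κ ε μ →
      prob W μ (fun S => ¬ Absorbs M u B T K S) ≤ C * Real.exp (-(c * κ * ε * N.card)) := by
  obtain ⟨B₀, h⟩ := main_nc M hnn hM lam hlam u hu husum
  refine ⟨B₀, fun B hB => ⟨(h B hB).1, ?_⟩⟩
  obtain ⟨K₀, h1⟩ := (h B hB).2
  refine ⟨K₀, fun L hL T => ?_⟩
  obtain ⟨K, C, c, hC, hc, h2⟩ := h1 L hL T
  have hLf : (0 : ℝ) < L.factorial := by exact_mod_cast Nat.factorial_pos L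
  have hLf1 : (1 : ℝ) ≤ L.factorial := by exact_mod_cast Nat.factorial_pos L
  obtain ⟨y, hy⟩ : ∃ y : ℝ, y = c * (1 - 1 / 2) * ((1 / 2) / L.factorial) := ⟨_, rfl⟩
  have hy0 : 0 < y := by rw [hy]; positivity
  obtain ⟨A, hA⟩ := exists_nat_gt (Real.log C / y)
  refine ⟨K, A, C, c, hC, hc, fun i n hn σ hσ W hW hWL => ⟨fun N hN => ?_, ?_⟩⟩
  · have hWL' : ∀ a, ∀ w ∈ W a, w.length ≤ L := fun a w hw => (hWL a w hw).2
    refine exists_of_prob hWL' N (E := fun S => Absorbs M u B T K S) ?_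
    refine lt_of_le_of_lt (h2 i n hn σ hσ W hW hWL N ∅ (by simp; positivity) (1 - 1 / 2)
      ((1 / 2) / L.factorial) (by norm_num) (by norm_num) (by positivity) (by
        rw [div_le_one hLf]
        linarith) _ (lazy_noise_on hWL' N (δ := 1 / 2) (by norm_num) (by norm_num))) ?_
    rw [← hy]
    have h3 : Real.log C < y * N.card := by
      have h4 : (A : ℝ) ≤ N.card := by exact_mod_cast hN
      rw [div_lt_iff₀ hy0] at hA
      have h5 := mul_le_mul_of_nonneg_left h4 hy0.le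
      linarith
    have h6 : C * Real.exp (-(y * N.card)) = Real.exp (Real.log C + -(y * N.card)) := by
      rw [Real.exp_add, Real.exp_log hC]
    rw [h6]
    exact Real.exp_lt_one_iff.2 (by linarith)
  · exact fun N Z hZ κ ε hκ hκ1 hε hε1 μ hμ =>
      h2 i n hn σ hσ W hW hWL N Z hZ κ ε hκ hκ1 hε hε1 μ hμ

end Pool.Agent.K9h94.SB
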