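import Pool.Agent.K9h94.SB.Main

/-!
Blocks of several matrices: gaps, frequencies of the letters, and covered letters.
-/

set_option autoImplicit false

namespace Pool.Agent.K9h94.SB

open Pool.Agent.H812R2.PI Pool.Agent.TH100.Pisot Pool.Agent.Y480.PI Pool.Agent.K9h94.SA
open Pool.Agent.R889.PZ
open scoped BigOperators

variable {m : ℕ}

theorem gap_one {M : Matrix (Fin (m+1)) (Fin (m+1)) ℤ} (P : PD M) (v : Fin (m+1) → ℤ) (R₁ : ℝ) :
    ∃ K : ℕ, 0 < pa P.ell (rv v) → ∀ k ≥ K, ∀ h : Fin (m+1) → ℝ, (∀ i, 0 < h i) →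
      R₁ * ∑ i, h i ≤ pa (ra h (M ^ k)) (rv v) := by
  by_cases hv : 0 < pa P.ell (rv v)
  · have hv' : 0 < P.ht v := hv
    have hcN : 0 ≤ P.c * P.N (rv v) := mul_nonneg P.c_pos.le (P.N_nonneg _)
    obtain ⟨Y, hY⟩ := exists_nat_ge (∑ i, (|R₁| + P.c * P.N (rv v)) / P.u i)
    obtain ⟨K, hK⟩ := sum_large P 0 v hv' (Y : ℤ)
    refine ⟨K, fun _ k hk h hh => ?_⟩
    have h1 := hK k hk
    rw [pa_ra, ← rv_mulVec]
    have h2 : ∀ i, R₁ ≤ rv ((M ^ k).mulVec v) i := by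
      intro i
      have h3 := (abs_le.1 (GGeom_pr P v k i)).1
      have h4 : (P.c * P.N (rv v)) * P.rho ^ k ≤ P.c * P.N (rv v) :=
        mul_le_of_le_one_right hcN (pow_le_one₀ P.rho_nonneg P.rho_lt.le)
      have h5 : (|R₁| + P.c * P.N (rv v)) / P.u i ≤ ∑ i, (|R₁| + P.c * P.N (rv v)) / P.u i :=
        Finset.single_le_sum (f := fun i => (|R₁| + P.c * P.N (rv v)) / P.u i)
          (fun j _ => div_nonneg (by positivity) (P.u_pos j).le) (Finset.mem_univ i)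
      have h6 : ((Y : ℤ) : ℝ) ≤ ∑ j, (((M ^ k).mulVec v j : ℤ) : ℝ) := by
        have : (((Y : ℤ)) : ℝ) ≤ ((∑ j, (M ^ k).mulVec v j : ℤ) : ℝ) := by exact_mod_cast h1
        push_cast at this ⊢
        exact this
      have h7 : (|R₁| + P.c * P.N (rv v)) / P.u i ≤ ∑ j, (((M ^ k).mulVec v j : ℤ) : ℝ) := by
        refine (h5.trans hY).trans ?_
        exact_mod_cast h6
      rw [div_le_iff₀ (P.u_pos i)] at h7
      have h8 := le_abs_self R₁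
      change R₁ ≤ (((M ^ k).mulVec v i : ℤ) : ℝ)
      linarith
    unfold pa
    rw [Finset.mul_sum]
    refine Finset.sum_le_sum fun i _ => ?_
    rw [mul_comm]
    exact mul_le_mul_of_nonneg_left (h2 i) (hh i).le
  · exact ⟨0, fun h => absurd h hv⟩

theorem gap_all {M : Matrix (Fin (m+1)) (Fin (m+1)) ℤ} (P : PD M) (D R₁ : ℝ) :
    ∃ K : ℕ, ∀ k ≥ K, ∀ v : Fin (m+1) → ℤ, nm (rv v) ≤ D → 0 < pa P.ell (rv v) →
      ∀ h : Fin (m+1) → ℝ, (∀ i, 0 < h i) → R₁ * ∑ i, h i ≤ pa (ra h (M ^ k)) (rv v) := by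
  classical
  choose K hK using fun v => gap_one P v R₁
  refine ⟨(finite_nm (m := m) D).toFinset.sup K, fun k hk v hv hpos h hh => ?_⟩
  refine hK v hpos k (le_trans ?_ hk) h hh
  exact Finset.le_sup ((finite_nm (m := m) D).mem_toFinset.2 hv)

/-- positive values of the pairing on small vectors are large -/
def Gap (D R₁ : ℝ) (τ : Fin (m+1) → List (Fin (m+1))) : Prop :=
  ∀ f : Fin (m+1) → ℝ, (∀ i, 0 < f i) → ∀ v : Fin (m+1) → ℤ, nm (rv v) ≤ D →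
    0 < pa (ra f (inc τ)) (rv v) → R₁ * ∑ i, f i ≤ pa (ra f (inc τ)) (rv v)

theorem row_pos {ρ : Fin (m+1) → List (Fin (m+1))} (hdet : (inc ρ).det ≠ 0) (i : Fin (m+1)) :
    ∃ j, 1 ≤ inc ρ i j := by
  by_contra hcon
  push Not at hcon
  refine hdet (Matrix.det_eq_zero_of_row_eq_zero i fun j => ?_)
  have h1 := inc_nonneg ρ i j
  have h2 := hcon j
  omega

theorem sum_ra {ρ : Fin (m+1) → List (Fin (m+1))} (hdet : (inc ρ).det ≠ 0)
    {f : Fin (m+1) → ℝ} (hf : ∀ i, 0 < f i) : ∑ i, f i ≤ ∑ j, ra f (inc ρ) j := by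
  unfold ra
  rw [Finset.sum_comm]
  refine Finset.sum_le_sum fun i _ => ?_
  obtain ⟨j, hj⟩ := row_pos hdet i
  have h1 : f i * ((inc ρ i j : ℤ) : ℝ) ≤ ∑ j, f i * ((inc ρ i j : ℤ) : ℝ) :=
    Finset.single_le_sum (f := fun j => f i * ((inc ρ i j : ℤ) : ℝ))
      (fun j _ => mul_nonneg (hf i).le (by exact_mod_cast inc_nonneg ρ i j)) (Finset.mem_univ j)
  have h2 : (1 : ℝ) ≤ ((inc ρ i j : ℤ) : ℝ) := by exact_mod_cast hj
  have h3 := mul_le_mul_of_nonneg_left h2 (hf i).le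
  linarith

theorem gap_block {M : Matrix (Fin (m+1)) (Fin (m+1)) ℤ} (P : PD M) (D R₁ : ℝ) (hR : 0 ≤ R₁) :
    ∃ K : ℕ, ∀ k ≥ K, ∀ ρ : Fin (m+1) → List (Fin (m+1)), (inc ρ).det ≠ 0 →
      ∀ τ : Fin (m+1) → List (Fin (m+1)), inc τ = M ^ k → Gap D R₁ (comp ρ τ) := by
  obtain ⟨K1, hK1⟩ := sign_all P D
  obtain ⟨K2, hK2⟩ := gap_all P D R₁
  refine ⟨max K1 K2, fun k hk ρ hdet τ hτ f hf v hv hpos => ?_⟩
  have hh := col_pos ρ hdet hf
  rw [inc_comp, hτ, ra_mul] at hpos ⊢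
  have h1 := hK1 k (le_trans (le_max_left _ _) hk) v hv _ hh hpos
  refine le_trans ?_ (hK2 k (le_trans (le_max_right _ _) hk) v hv h1 _ hh)
  exact mul_le_mul_of_nonneg_left (sum_ra hdet hf) hR

/-- all letters have a positive frequency in the images -/
def Freq (θ : ℝ) (τ : Fin (m+1) → List (Fin (m+1))) : Prop :=
  ∀ i j, θ * ∑ l, ((inc τ l j : ℤ) : ℝ) ≤ ((inc τ i j : ℤ) : ℝ)

theorem Freq.mono {θ θ' : ℝ} (h : θ' ≤ θ) {τ : Fin (m+1) → List (Fin (m+1))}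
    (hτ : Freq θ τ) : Freq θ' τ := by
  intro i j
  refine le_trans (mul_le_mul_of_nonneg_right h ?_) (hτ i j)
  exact Finset.sum_nonneg fun l _ => by exact_mod_cast inc_nonneg τ l j

theorem freq_block {M : Matrix (Fin (m+1)) (Fin (m+1)) ℤ} (P : PD M) (T : ℕ) :
    ∃ θ : ℝ, 0 < θ ∧ ∃ K : ℕ, ∀ k ≥ K, ∀ ρ : Fin (m+1) → List (Fin (m+1)), (inc ρ).det ≠ 0 →
      (∀ a, (ρ a).length ≤ T) →
      ∀ τ : Fin (m+1) → List (Fin (m+1)), inc τ = M ^ k → Freq θ (comp ρ τ) := by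
  obtain ⟨δ, hδd⟩ : ∃ δ : ℝ, δ = (∑ i, (P.u i)⁻¹)⁻¹ := ⟨_, rfl⟩
  have hinvpos : ∀ i, 0 < (P.u i)⁻¹ := fun i => inv_pos.2 (P.u_pos i)
  have hs0 : 0 < ∑ i, (P.u i)⁻¹ :=
    Finset.sum_pos (fun i _ => hinvpos i) ⟨0, Finset.mem_univ _⟩
  have hδ0 : 0 < δ := by rw [hδd]; exact inv_pos.2 hs0
  have hδ : ∀ i, δ ≤ P.u i := fun i => by
    rw [hδd]
    refine inv_le_of_inv_le₀ (P.u_pos i) ?_
    exact Finset.single_le_sum (f := fun i => (P.u i)⁻¹) (fun j _ => (hinvpos j).le)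
      (Finset.mem_univ i)
  have hall : ∀ j : Fin (m+1), ∃ K : ℕ, ∀ k ≥ K,
      2 * (P.c * P.N (rv (ev j))) / δ ≤ ∑ i, (((M ^ k).mulVec (ev j) i : ℤ) : ℝ) := by
    intro j
    obtain ⟨Y, hY⟩ := exists_nat_ge (2 * (P.c * P.N (rv (ev j))) / δ)
    obtain ⟨K, hK⟩ := sum_large P 0 (ev j) (by rw [ht_ev]; exact P.ell_pos j) (Y : ℤ)
    refine ⟨K, fun k hk => ?_⟩
    have h1 : (((Y : ℤ)) : ℝ) ≤ ((∑ i, (M ^ k).mulVec (ev j) i : ℤ) : ℝ) := by
      exact_mod_cast hK k hk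
    push_cast at h1
    linarith
  choose K hK using hall
  refine ⟨δ / (2 * (T + 1)), by positivity, ∑ j, K j, fun k hk ρ hdet hT τ hτ i j => ?_⟩
  have hkj : K j ≤ k := (Finset.single_le_sum (f := K) (fun _ _ => Nat.zero_le _)
    (Finset.mem_univ j)).trans hk
  obtain ⟨x, hx⟩ : ∃ x : Fin (m+1) → ℝ, x = fun l => (((M ^ k).mulVec (ev j) l : ℤ) : ℝ) :=
    ⟨_, rfl⟩
  have hs : 2 * (P.c * P.N (rv (ev j))) ≤ (∑ l, x l) * δ := by
    have := hK j k hkj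
    rw [div_le_iff₀ hδ0] at this
    rw [hx]
    exact this
  have hcN : 0 ≤ P.c * P.N (rv (ev j)) := mul_nonneg P.c_pos.le (P.N_nonneg _)
  have hs1 : 0 ≤ ∑ l, x l := by
    by_contra hcon
    push Not at hcon
    nlinarith
  have hxl : ∀ l, (∑ l, x l) * δ / 2 ≤ x l := by
    intro l
    have h3 := (abs_le.1 (GGeom_pr P (ev j) k l)).1
    have h4 : (P.c * P.N (rv (ev j))) * P.rho ^ k ≤ P.c * P.N (rv (ev j)) :=
      mul_le_of_le_one_right hcN (pow_le_one₀ P.rho_nonneg P.rho_lt.le)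
    have h5 : (∑ l, x l) * δ ≤ (∑ l, x l) * P.u l := mul_le_mul_of_nonneg_left (hδ l) hs1
    have h6 : x l = (((M ^ k).mulVec (ev j) l : ℤ) : ℝ) := by rw [hx]
    have h7 : ∑ l, x l = ∑ l, (((M ^ k).mulVec (ev j) l : ℤ) : ℝ) := by rw [hx]
    rw [← h6, ← h7] at h3
    linarith
  have hx0 : ∀ l, 0 ≤ x l := fun l => le_trans (by positivity) (hxl l)
  have hA : ∀ i, ((inc (comp ρ τ) i j : ℤ) : ℝ) = ∑ l, ((inc ρ i l : ℤ) : ℝ) * x l := by
    intro i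
    rw [inc_comp, hτ, Matrix.mul_apply, hx]
    push_cast
    refine Finset.sum_congr rfl fun l _ => ?_
    rw [GGeom_col]
  obtain ⟨l₀, hl₀⟩ := row_pos hdet i
  have h1 : (∑ l, x l) * δ / 2 ≤ ((inc (comp ρ τ) i j : ℤ) : ℝ) := by
    rw [hA]
    have h2 : ((inc ρ i l₀ : ℤ) : ℝ) * x l₀ ≤ ∑ l, ((inc ρ i l : ℤ) : ℝ) * x l :=
      Finset.single_le_sum (f := fun l => ((inc ρ i l : ℤ) : ℝ) * x l)
        (fun l _ => mul_nonneg (by exact_mod_cast inc_nonneg ρ i l) (hx0 l)) (Finset.mem_univ l₀)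
    have h3 : (1 : ℝ) ≤ ((inc ρ i l₀ : ℤ) : ℝ) := by exact_mod_cast hl₀
    have h4 := mul_le_mul_of_nonneg_right h3 (hx0 l₀)
    have h5 := hxl l₀
    linarith
  have h2 : ∑ l, ((inc (comp ρ τ) l j : ℤ) : ℝ) ≤ T * ∑ l, x l := by
    simp only [hA]
    rw [Finset.sum_comm, Finset.mul_sum]
    refine Finset.sum_le_sum fun l _ => ?_
    rw [← Finset.sum_mul]
    refine mul_le_mul_of_nonneg_right ?_ (hx0 l)
    have h3 := ab_sum (ρ l)
    have h4 : ((∑ i, ab (ρ l) i : ℤ) : ℝ) ≤ T := by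
      rw [h3]
      exact_mod_cast hT l
    push_cast at h4
    exact h4
  calc δ / (2 * (T + 1)) * ∑ l, ((inc (comp ρ τ) l j : ℤ) : ℝ)
      ≤ δ / (2 * (T + 1)) * (T * ∑ l, x l) := mul_le_mul_of_nonneg_left h2 (by positivity)
    _ ≤ δ / (2 * (T + 1)) * ((T + 1) * ∑ l, x l) := by
        refine mul_le_mul_of_nonneg_left ?_ (by positivity)
        refine mul_le_mul_of_nonneg_right (by linarith) hs1
    _ = (∑ l, x l) * δ / 2 := by field_simp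
    _ ≤ _ := h1

/-- the composition of two blocks is a block -/
theorem blk_comp {κ E Q : ℝ} (hQ : 0 < Q) (hE : 1 + κ ≤ E) {τ τ' : Fin (m+1) → List (Fin (m+1))}
    (h : Blk κ E Q τ) (h' : Blk κ E Q τ') : Blk κ (2 * E) Q (comp τ τ') := by
  have e : compList [τ, τ'] = comp τ τ' := by
    funext a
    simp [compList, comp, ext]
  have hl : ∀ σ ∈ [τ, τ'], Blk κ E Q σ := by
    intro σ hσ
    rcases List.mem_cons.1 hσ with rfl | hσ
    · exact h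
    · rw [List.mem_singleton.1 hσ]
      exact h'
  refine ⟨fun f hf => ?_, fun f hf z hz => ?_, fun f hf g hg c j => ?_, fun i j => ?_⟩
  · rw [inc_comp, ra_mul]
    exact h'.cmp _ (h.cmp f hf).1
  · rw [← e] at hz ⊢
    exact (list_con _ hl f hf z hz).2 (by simp)
  · rw [← e]
    exact list_pre hQ hE _ hl f hf g hg c j
  · rw [← e]
    exact list_big hQ _ hl (by simp) i j

theorem blk_mono {κ E E' Q : ℝ} (h : E ≤ E') {τ : Fin (m+1) → List (Fin (m+1))}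
    (hτ : Blk κ E Q τ) : Blk κ E' Q τ :=
  ⟨hτ.cmp, hτ.con, fun f hf g hg c j => (hτ.pre f hf g hg c j).trans h, hτ.big⟩

end Pool.Agent.K9h94.SB
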