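import Pool.Agent.K9h94.SB.Cover
import Pool.Agent.K9h94.SA.Main

/-!
Smoothed analysis of the Pisot substitution conjecture: noise on a part of the blocks.
-/

set_option autoImplicit false

namespace Pool.Agent.K9h94.SB

open Pool.Agent.H812R2.PI Pool.Agent.TH100.Pisot Pool.Agent.Y480.PI Pool.Agent.K9h94.SA
open Pool.Agent.R889.PZ (GCC Coinc gcc_of_hit persist comp_iter)
open scoped BigOperators

/-- a letter with a lot of noise -/
theorem noisy_letter {d : ℕ} (hd : 0 < d) {W : Fin d → List (List (Fin d))} (N : Finset (Idx W)) :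
    ∃ b : Fin d, (N.card : ℝ) / d ≤ ((Finset.univ.filter
      (fun j : Fin (W b).length => (⟨b, j⟩ : Idx W) ∈ N)).card : ℝ) := by
  classical
  by_contra hcon
  push Not at hcon
  have h1 : N.card ≤ ∑ b : Fin d, (Finset.univ.filter
      (fun j : Fin (W b).length => (⟨b, j⟩ : Idx W) ∈ N)).card := by
    have h2 : N ⊆ (Finset.univ : Finset (Fin d)).biUnion (fun b => (Finset.univ.filter
        (fun j : Fin (W b).length => (⟨b, j⟩ : Idx W) ∈ N)).image
          (fun j => (⟨b, j⟩ : Idx W))) := by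
      rintro ⟨b, j⟩ hi
      rw [Finset.mem_biUnion]
      refine ⟨b, Finset.mem_univ _, ?_⟩
      rw [Finset.mem_image]
      exact ⟨j, by simpa using hi, rfl⟩
    refine (Finset.card_le_card h2).trans (Finset.card_biUnion_le.trans ?_)
    exact Finset.sum_le_sum fun b _ => Finset.card_image_le
  have hdr : (0 : ℝ) < d := by exact_mod_cast hd
  have h3 : (N.card : ℝ) ≤ ∑ b : Fin d, ((Finset.univ.filter
      (fun j : Fin (W b).length => (⟨b, j⟩ : Idx W) ∈ N)).card : ℝ) := by exact_mod_cast h1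
  have h4 : ∑ b : Fin d, ((Finset.univ.filter
      (fun j : Fin (W b).length => (⟨b, j⟩ : Idx W) ∈ N)).card : ℝ) <
        ∑ _b : Fin d, (N.card : ℝ) / d :=
    Finset.sum_lt_sum_of_nonempty ⟨⟨0, hd⟩, Finset.mem_univ _⟩ fun b _ => hcon b
  rw [Finset.sum_const, Finset.card_univ, Fintype.card_fin, nsmul_eq_mul,
    mul_div_cancel₀ _ hdr.ne'] at h4
  linarith

/-- the finite set of the words which cover a letter -/
theorem configs_finite {d : ℕ} {M : Matrix (Fin d) (Fin d) ℤ} (P : PD M) (D : ℝ) (R : ℕ) :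
    {t : Fin d × (Fin d → ℤ) × List (Fin d) | P.ht t.2.1 ≤ 0 ∧
      P.ell t.1 ≤ P.ht (t.2.1 + ab t.2.2) ∧ P.N (rv t.2.1) ≤ D ∧ t.2.2.length ≤ R}.Finite := by
  have hL : ∀ i, P.ell i ≤ ∑ j, P.ell j := fun i =>
    Finset.single_le_sum (fun j _ => (P.ell_pos j).le) (Finset.mem_univ i)
  have h0 : 0 ≤ ∑ j, P.ell j := Finset.sum_nonneg fun j _ => (P.ell_pos j).le
  refine ((Set.finite_univ (α := Fin d)).prod ((window_finite P D (R * ∑ j, P.ell j)).prod
    (List.finite_length_le (Fin d) R))).subset ?_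
  rintro ⟨b, z, w⟩ ⟨h1, h2, h3, h4⟩
  refine ⟨Set.mem_univ _, ⟨h3, ?_⟩, h4⟩
  simp only at h1 h2 h4
  have h5 := (ht_diff P (δ := 0) (fun i => (P.ell_pos i).le) hL w w.length
    (Nat.zero_le _) le_rfl).2
  rw [List.take_length, List.take_zero, ab_nil, ht_zero] at h5
  rw [ht_add] at h2
  have h6 : ((w.length : ℝ) - ((0 : ℕ) : ℝ)) * ∑ j, P.ell j ≤ R * ∑ j, P.ell j := by
    refine mul_le_mul_of_nonneg_right ?_ h0
    have : (w.length : ℝ) ≤ R := by exact_mod_cast h4
    simpa using this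
  have h7 := P.ell_pos b
  rw [abs_le]
  constructor
  · linarith
  · have : (0 : ℝ) ≤ R * ∑ j, P.ell j := by positivity
    linarith

/-- with high probability the image of some letter is covered with coincidences -/
theorem cov_prob {d : ℕ} {M : Matrix (Fin d) (Fin d) ℤ} (P : PD M) (B : ℝ) (hB : 0 ≤ B) :
    ∃ K : ℕ, 0 < K ∧ ∀ L : ℕ, K ≤ L → ∀ (D : ℝ) (R : ℕ),
      ∃ C c : ℝ, 0 < C ∧ 0 < c ∧ ∃ n₀ : ℕ, ∀ n ≥ n₀, 1 ≤ n → ∀ σ ∈ SubSet P.u (M ^ n) B,
      ∀ W : Fin d → List (List (Fin d)), (∀ a, (W a).flatten = σ a) →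
      (∀ a, ∀ w ∈ W a, K ≤ w.length ∧ w.length ≤ L) →
      ∀ N Z : Finset (Idx W),
      ∀ κ ε : ℝ, 0 ≤ κ → κ ≤ 1 → 0 ≤ ε → ε ≤ 1 →
      ∀ μ : (Idx W → List (Fin d)) → ℝ, IsNoiseOn W N Z κ ε μ →
      prob W μ (fun S => ¬ ∃ b, Cov P S b D R) ≤
        C * Real.exp (-(κ * ε * (c * N.card - Z.card))) := by
  classical
  have hd : 0 < d := by
    rcases Nat.eq_zero_or_pos d with h | h
    · subst h
      have := P.u_sum
      simp at this
    · exact h
  obtain ⟨H, hsurg⟩ := surg_exists P.u P.u_pos B hB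
  refine ⟨2 * (2 * H + 1), by omega, fun L hKL D R => ?_⟩
  have hdr : (0 : ℝ) < d := by exact_mod_cast hd
  obtain ⟨F, hF⟩ : ∃ F, F = (configs_finite P D R).toFinset := ⟨_, rfl⟩
  have hFmem : ∀ t, t ∈ F ↔ (P.ht t.2.1 ≤ 0 ∧ P.ell t.1 ≤ P.ht (t.2.1 + ab t.2.2) ∧
      P.N (rv t.2.1) ≤ D ∧ t.2.2.length ≤ R) := by
    intro t
    rw [hF, Set.Finite.mem_toFinset]
    rfl
  have hall := fun t : {t // t ∈ F} => config_bound P B H L hsurg t.1.1 t.1.2.1 t.1.2.2
    ((hFmem t.1).1 t.2).1 ((hFmem t.1).1 t.2).2.1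
  choose c hc n₀ hbound using hall
  obtain ⟨c0, hc0, hc0i⟩ : ∃ c0 : ℝ, 0 < c0 ∧ ∀ t, c0 ≤ c t := by
    have hs : 0 ≤ ∑ t, (c t)⁻¹ := Finset.sum_nonneg fun t _ => (inv_pos.2 (hc t)).le
    refine ⟨(1 + ∑ t, (c t)⁻¹)⁻¹, by positivity, fun t => ?_⟩
    have h1 := Finset.single_le_sum (f := fun t => (c t)⁻¹)
      (fun t _ => (inv_pos.2 (hc t)).le) (Finset.mem_univ t)
    exact inv_le_of_inv_le₀ (hc t) (by linarith)
  refine ⟨F.card * Real.exp 1 + 1, c0 / d, by positivity, div_pos hc0 hdr, ∑ t, n₀ t,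
    fun n hn h1n σ hσ W hW hL N Z κ ε hκ hκ1 hε hε1 μ hμ => ?_⟩
  have hinc : ∀ x ∈ outcomes W, inc (glue W x) = M ^ n := by
    intro x hx
    rw [← hσ.1]
    ext i j
    have : ab (glue W x j) = ab (σ j) := by rw [glue_ab hx, hW]
    exact congrFun this i
  obtain ⟨b, hb⟩ := noisy_letter hd N
  obtain ⟨Fb, hFb⟩ : ∃ Fb : Finset {t // t ∈ F}, Fb = F.attach.filter (fun t => t.1.1 = b) :=
    ⟨_, rfl⟩
  have h2 : prob W μ (fun S => ¬ ∃ b, Cov P S b D R) ≤ ∑ t ∈ Fb,
      prob W μ (fun S => ¬ ∃ e, e ∈ edges 0 (S t.1.1) ∧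
        e ∈ edges ((M ^ n).mulVec t.1.2.1) (ext S t.1.2.2)) := by
    refine prob_union' hμ.nonneg Fb fun x hx hnot => ?_
    by_contra hcon
    push Not at hcon
    apply hnot
    refine ⟨b, fun z w z1 z2 z3 z4 => ?_⟩
    rw [hinc x hx]
    have ht : (b, z, w) ∈ F := (hFmem (b, z, w)).2 ⟨z1, z2, z3, z4⟩
    exact hcon ⟨(b, z, w), ht⟩ (by
      rw [hFb, Finset.mem_filter]
      exact ⟨Finset.mem_attach _ _, rfl⟩)
  refine h2.trans ?_
  have h9 : 0 ≤ κ * ε := mul_nonneg hκ hε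
  calc ∑ t ∈ Fb, prob W μ (fun S => ¬ ∃ e, e ∈ edges 0 (S t.1.1) ∧
        e ∈ edges ((M ^ n).mulVec t.1.2.1) (ext S t.1.2.2))
      ≤ ∑ _t ∈ Fb, Real.exp 1 * Real.exp (-(κ * ε * (c0 / d * N.card - Z.card))) := by
        refine Finset.sum_le_sum fun t ht => ?_
        have htb : t.1.1 = b := by
          rw [hFb, Finset.mem_filter] at ht
          exact ht.2
        have hnt : n₀ t ≤ ∑ t, n₀ t := Finset.single_le_sum (f := n₀) (fun _ _ => Nat.zero_le _)
          (Finset.mem_univ t)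
        refine (hbound t n (hnt.trans hn) h1n σ hσ W hW hL N Z κ ε hκ hκ1 hε hε1 μ hμ).trans ?_
        refine mul_le_mul_of_nonneg_left ?_ (Real.exp_pos _).le
        rw [Real.exp_le_exp, neg_le_neg_iff]
        refine mul_le_mul_of_nonneg_left ?_ h9
        rw [htb]
        have h3 := mul_le_mul (hc0i t) hb (by positivity) (hc t).le
        have h4 : c0 / d * (N.card : ℝ) = c0 * (N.card / d) := by ring
        rw [h4]
        linarith
    _ = Fb.card * Real.exp 1 * Real.exp (-(κ * ε * (c0 / d * N.card - Z.card))) := by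
        rw [Finset.sum_const, nsmul_eq_mul]
        ring
    _ ≤ _ := by
        refine mul_le_mul_of_nonneg_right ?_ (Real.exp_pos _).le
        have h5 : Fb.card ≤ F.card := by
          rw [hFb]
          refine (Finset.card_filter_le _ _).trans ?_
          rw [Finset.card_attach]
        have h6 : (Fb.card : ℝ) ≤ F.card := by exact_mod_cast h5
        have h7 := mul_le_mul_of_nonneg_right h6 (Real.exp_pos 1).le
        linarith

/-! ### the square of a substitution -/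

section
variable {d : ℕ}

theorem iter_comp_self (σ : Fin d → List (Fin d)) (n : ℕ) :
    iter (comp σ σ) n = iter σ (2 * n) := by
  induction n with
  | zero => rfl
  | succ n ih =>
    have h1 : iter (comp σ σ) (n + 1) = comp (comp σ σ) (iter (comp σ σ) n) := by
      funext a
      rw [iter_succ]
      rfl
    have h2 : iter σ (2 * (n + 1)) = comp σ (comp σ (iter σ (2 * n))) := by
      funext a
      rw [show 2 * (n + 1) = 2 * n + 1 + 1 by ring, iter_succ, iter_succ]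
      rfl
    rw [h1, h2, ih, comp_assoc]

theorem lang_comp_self (σ : Fin d → List (Fin d)) (hdet : (inc σ).det ≠ 0) :
    lang (comp σ σ) = lang σ := by
  ext w
  constructor
  · rintro ⟨n, hn, a, ha⟩
    exact ⟨2 * n, by omega, a, by rw [← iter_comp_self]; exact ha⟩
  · rintro ⟨n, hn, a, ha⟩
    obtain ⟨b, hb⟩ : ∃ b, a ∈ iter σ n b := by
      by_contra hcon
      push Not at hcon
      have h1 : (inc (iter σ n)).det = 0 := by
        refine Matrix.det_eq_zero_of_row_eq_zero a fun b => ?_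
        unfold inc
        rw [List.count_eq_zero_of_not_mem (hcon b)]
        rfl
      rw [inc_iter, Matrix.det_pow] at h1
      exact hdet ((pow_eq_zero_iff (by omega)).1 h1)
    refine ⟨n, hn, b, ?_⟩
    rw [iter_comp_self, two_mul, iter_add]
    obtain ⟨p, q, hpq⟩ := List.append_of_mem hb
    rw [hpq, ext_append, ext_cons]
    refine ha.trans ?_
    exact ⟨ext (iter σ n) p, ext (iter σ n) q, by rw [List.append_assoc]⟩

theorem semi_comp_self (σ : Fin d → List (Fin d)) (hdet : (inc σ).det ≠ 0)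
    (h : SemiConjToral (comp σ σ)) : SemiConjToral σ := by
  have h1 : X (comp σ σ) = X σ := by
    unfold X
    rw [lang_comp_self σ hdet]
  unfold SemiConjToral at h ⊢
  rwa [h1] at h

theorem gcc_comp_self (ell : Fin d → ℝ) (σ : Fin d → List (Fin d)) (h : GCC ell (comp σ σ)) :
    GCC ell σ := by
  intro a b v hO
  obtain ⟨n, e, he1, he2⟩ := h a b v hO
  rw [iter_comp_self] at he1 he2
  refine ⟨2 * n, e, he1, ?_⟩
  rw [inc_comp, ← pow_two, ← pow_mul] at he2
  exact he2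

end


end Pool.Agent.K9h94.SB
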