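import Pool.Agent.K9h94.SA.Prob

/-!
Noise on a part of the blocks: many disjoint pairs of blocks.
-/

set_option autoImplicit false

namespace Pool.Agent.K9h94.SB

open Pool.Agent.H812R2.PI Pool.Agent.TH100.Pisot Pool.Agent.Y480.PI Pool.Agent.K9h94.SA
open scoped BigOperators

variable {d : ℕ} {W : Fin d → List (List (Fin d))}

/-- `μ` is a probability distribution on the families of rearrangements of the blocks. If the words
which replace all the other blocks are given, then the conditional probability that the block `i` is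
unchanged is at least `κ` for all `i` outside of `Z`, and the conditional probability that it is replaced
by `w` is at least `ε` for all rearrangements `w` of its letters and all `i` in `N`. -/
structure IsNoiseOn (W : Fin d → List (List (Fin d))) (N Z : Finset (Idx W)) (κ ε : ℝ)
    (μ : (Idx W → List (Fin d)) → ℝ) : Prop where
  nonneg : ∀ x ∈ outcomes W, 0 ≤ μ x
  sum_one : ∑ x ∈ outcomes W, μ x = 1
  unchanged : ∀ i, i ∉ Z → ∀ x ∈ outcomes W,
    κ * ∑ w ∈ rearr W i, μ (Function.update x i w) ≤ μ (Function.update x i (blk W i))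
  lower : ∀ i, i ∈ N → ∀ x ∈ outcomes W, ∀ w ∈ rearr W i,
    ε * ∑ w' ∈ rearr W i, μ (Function.update x i w') ≤ μ (Function.update x i w)

/-- an independent set in a graph with bounded degrees -/
theorem indep {α : Type} [DecidableEq α] (Cf : α → α → Prop) [DecidableRel Cf]
    (hsymm : ∀ j k, Cf j k → Cf k j) (D : ℕ) :
    ∀ (n : ℕ) (J : Finset α), J.card ≤ n → (∀ j ∈ J, (J.filter (fun k => Cf j k)).card ≤ D) →
      ∃ G ⊆ J, (∀ j ∈ G, ∀ k ∈ G, j ≠ k → ¬ Cf j k) ∧ J.card ≤ (D + 1) * G.card := by
  intro n
  induction n with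
  | zero =>
    intro J hJ _
    exact ⟨∅, by simp, by simp, by omega⟩
  | succ n ih =>
    intro J hJ hD
    rcases J.eq_empty_or_nonempty with rfl | ⟨j, hj⟩
    · exact ⟨∅, by simp, by simp, by simp⟩
    obtain ⟨J', hJ'⟩ : ∃ J', J' = J.filter (fun k => k ≠ j ∧ ¬ Cf j k) := ⟨_, rfl⟩
    have hsub : J' ⊆ J := by rw [hJ']; exact Finset.filter_subset _ _
    have hlt : J'.card < J.card := Finset.card_lt_card (by
      rw [Finset.ssubset_iff_of_subset hsub]
      exact ⟨j, hj, by rw [hJ']; simp⟩)
    obtain ⟨G, hG, hind, hcard⟩ := ih J' (by omega) (fun k hk =>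
      (Finset.card_le_card (Finset.filter_subset_filter _ hsub)).trans (hD k (hsub hk)))
    have hjG : j ∉ G := by
      intro h
      have := hG h
      rw [hJ', Finset.mem_filter] at this
      exact this.2.1 rfl
    refine ⟨insert j G, ?_, ?_, ?_⟩
    · intro x hx
      rcases Finset.mem_insert.1 hx with rfl | hx
      · exact hj
      · exact hsub (hG hx)
    · intro x hx y hy hxy
      have key : ∀ y ∈ G, ¬ Cf j y := by
        intro y hy
        have := hG hy
        rw [hJ', Finset.mem_filter] at this
        exact this.2.2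
      rcases Finset.mem_insert.1 hx with h1 | h1
      · rcases Finset.mem_insert.1 hy with h2 | h2
        · exact absurd (h1.trans h2.symm) hxy
        · rw [h1]
          exact key y h2
      · rcases Finset.mem_insert.1 hy with h2 | h2
        · rw [h2]
          exact fun h => key x h1 (hsymm _ _ h)
        · exact hind x h1 y h2 hxy
    · rw [Finset.card_insert_of_notMem hjG]
      have h1 : J ⊆ insert j (J' ∪ J.filter (fun k => Cf j k)) := by
        intro k hk
        rw [Finset.mem_insert, Finset.mem_union, hJ', Finset.mem_filter, Finset.mem_filter]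
        by_cases h : k = j
        · exact Or.inl h
        · by_cases h' : Cf j k
          · exact Or.inr (Or.inr ⟨hk, h'⟩)
          · exact Or.inr (Or.inl ⟨hk, h, h'⟩)
      have h2 := Finset.card_le_card h1
      have h3 := Finset.card_insert_le j (J' ∪ J.filter (fun k => Cf j k))
      have h4 := Finset.card_union_le J' (J.filter (fun k => Cf j k))
      have h5 := hD j hj
      calc J.card ≤ (D + 1) * G.card + (D + 1) := by omega
        _ = (D + 1) * (G.card + 1) := by ring

theorem st_mono (l : List (List (Fin d))) {j j' : ℕ} (h : j ≤ j') : st l j ≤ st l j' := by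
  unfold st
  have : l.take j = (l.take j').take j := by rw [List.take_take, min_eq_left h]
  rw [this]
  conv_rhs => rw [← List.take_append_drop j (l.take j')]
  rw [List.flatten_append, List.length_append]
  omega

theorem st_lt (l : List (List (Fin d))) {j j' : ℕ} (hj : j < l.length) (h : j < j') :
    st l j + l[j].length ≤ st l j' := by
  rw [← st_succ l j hj]
  exact st_mono l h

/-- many disjoint pairs of blocks, the second ones in a given set -/
theorem pairs_bound2 {u : Fin d → ℝ} {A : Matrix (Fin d) (Fin d) ℤ} {B : ℝ} {H L : ℕ}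
    (hsurg : Surg u B H) {σ : Fin d → List (Fin d)}
    (hσ : σ ∈ SubSet u A B) (hW : ∀ a, (W a).flatten = σ a)
    (hL : ∀ a, ∀ w ∈ W a, 2 * (2 * H + 1) ≤ w.length ∧ w.length ≤ L)
    {N Z : Finset (Idx W)} {κ ε : ℝ} {μ : (Idx W → List (Fin d)) → ℝ}
    (hμ : IsNoiseOn W N Z κ ε μ) (hκ : 0 ≤ κ) (hκ1 : κ ≤ 1) (hε : 0 ≤ ε) (hε1 : ε ≤ 1)
    {a b : Fin d} {s : Fin d → ℤ} (hs : dis u s ≤ 1)
    (hsep : a = b → (L : ℤ) < |∑ i, s i|)
    (J : Finset (Fin (W b).length)) (hJN : ∀ j ∈ J, (⟨b, j⟩ : Idx W) ∈ N)
    (hJ : ∀ j ∈ J, 0 ≤ ((st (W b) j : ℕ) : ℤ) + ∑ i, s i ∧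
      ((st (W b) j + (W b)[j].length : ℕ) : ℤ) + ∑ i, s i ≤ ((σ a).length : ℤ)) :
    prob W μ (fun S => ¬ ∃ e, e ∈ edges 0 (S a) ∧ e ∈ edges s (S b)) ≤
      Real.exp (-(κ * ε * ((J.card : ℝ) / (2 * L + 2) - Z.card))) := by
  classical
  have hlen : ∀ c : Fin d, ∀ (j : ℕ) (hj : j < (W c).length),
      2 * (2 * H + 1) ≤ (W c)[j].length ∧ (W c)[j].length ≤ L :=
    fun c j hj => hL c _ (List.getElem_mem hj)
  have hsel : ∀ j : {j // j ∈ J}, ∃ (z δ jA : ℕ) (hjA : jA < (W a).length),
      ((st (W b) j.1 : ℕ) : ℤ) + ∑ i, s i = (z : ℤ) ∧ δ ≤ 2 * H + 1 ∧ st (W a) jA ≤ z + δ ∧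
      z + δ + (2 * H + 1) ≤ st (W a) jA + (W a)[jA].length := by
    intro j
    obtain ⟨h1, h2⟩ := hJ j.1 j.2
    obtain ⟨z, hz⟩ := Int.eq_ofNat_of_zero_le h1
    have h3 := (hlen b j.1 j.1.2).1
    obtain ⟨δ, hδ, jA, hjA, h4, h5⟩ := two_windows (l := W a) (K := 2 * H + 1) (by omega)
      (fun w hw => (hL a w hw).1) z (by
        rw [hW]
        push_cast at h2
        have h6 : ((W b)[(j.1 : ℕ)].length : ℤ) = ((W b)[j.1].length : ℤ) := rfl
        omega)
    exact ⟨z, δ, jA, hjA, hz, hδ, h4, h5⟩
  choose z δ jA hjA hz hδ h1 h2 using hsel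
  have htar : ∀ j : {j // j ∈ J}, ∃ T : List (Fin d), T.Perm ((W b)[(j.1 : ℕ)]) ∧
      ∀ x ∈ outcomes W, x ⟨a, ⟨jA j, hjA j⟩⟩ = ((W a)[jA j]'(hjA j)) → x ⟨b, ⟨j.1, j.1.2⟩⟩ = T →
        ∃ e, e ∈ edges 0 (glue W x a) ∧ e ∈ edges s (glue W x b) := by
    intro j
    have g1 := h1 j
    have g2 := h2 j
    have g3 := hδ j
    have g4 := (hlen b j.1 j.1.2).1
    refine exists_target hsurg hσ hW hs (hjA j) j.1.2
      (r := z j + δ j - st (W a) (jA j)) (r' := δ j) (by omega) (by omega) ?_
    rw [Nat.add_sub_cancel' g1]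
    push_cast
    have := hz j
    linarith
  choose T hT₂ hT using htar
  obtain ⟨f, hfdef⟩ : ∃ f : {j // j ∈ J} → Idx W, f = fun j => ⟨a, ⟨jA j, hjA j⟩⟩ := ⟨_, rfl⟩
  obtain ⟨g, hgdef⟩ : ∃ g : {j // j ∈ J} → Idx W, g = fun j => ⟨b, j.1⟩ := ⟨_, rfl⟩
  have hg : Function.Injective g := by
    intro j k h
    rw [hgdef] at h
    have h3 := (idx_eq (hj := j.1.2) (hj' := k.1.2) h).2
    exact Subtype.ext (Fin.ext h3)
  -- the numbers of conflicts
  have hcount : ∀ c : Idx W, ((Finset.univ : Finset {j // j ∈ J}).filter (fun k => f k = c)).card ≤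
      L := by
    intro c
    have key : ((Finset.univ : Finset {j // j ∈ J}).filter (fun k => f k = c)).card ≤
        (Finset.range L).card := by
      refine Finset.card_le_card_of_injOn (fun k => z k + δ k - st (W c.1) c.2) ?_ ?_
      · intro k hk
        have hk' : f k = c := by simpa using hk
        have e1 := h1 k
        have e2 := h2 k
        have e3 := (hlen a (jA k) (hjA k)).2
        rw [Finset.coe_range, Set.mem_Iio]
        subst hk'
        rw [hfdef]
        dsimp only
        omega
      · intro k hk k' hk' he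
        have hk1 : f k = c := by simpa using hk
        have hk2 : f k' = c := by simpa using hk'
        have e1 := h1 k
        have e2 := h1 k'
        have e3 : st (W c.1) c.2 ≤ z k + δ k := by
          subst hk1
          rw [hfdef]
          exact e1
        have e4 : st (W c.1) c.2 ≤ z k' + δ k' := by
          rw [← hk2, hfdef]
          exact e2
        have e5 : z k + δ k = z k' + δ k' := by
          have he' : z k + δ k - st (W c.1) c.2 = z k' + δ k' - st (W c.1) c.2 := he
          omega
        have e6 := hz k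
        have e7 := hz k'
        have e8 : st (W b) k.1 + δ k = st (W b) k'.1 + δ k' := by omega
        have e9 := (hlen b k.1 k.1.2).1
        have e10 := (hlen b k'.1 k'.1.2).1
        have e11 := hδ k
        have e12 := hδ k'
        rcases lt_trichotomy (k.1 : ℕ) (k'.1 : ℕ) with h | h | h
        · have := st_lt (W b) k.1.2 h
          omega
        · exact Subtype.ext (Fin.ext h)
        · have := st_lt (W b) k'.1.2 h
          omega
    rwa [Finset.card_range] at key
  obtain ⟨G, -, hind, hcard⟩ := indep (α := {j // j ∈ J})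
    (fun j k => f j = f k ∨ f j = g k ∨ f k = g j)
    (fun j k h => by
      rcases h with h | h | h
      · exact Or.inl h.symm
      · exact Or.inr (Or.inr h)
      · exact Or.inr (Or.inl h)) (L + 1 + L) _ (Finset.univ : Finset {j // j ∈ J}) le_rfl (by
    intro j _
    have e1 : ((Finset.univ : Finset {j // j ∈ J}).filter
        (fun k => f j = f k ∨ f j = g k ∨ f k = g j)) ⊆
        ((Finset.univ.filter (fun k => f k = f j)) ∪ (Finset.univ.filter (fun k => g k = f j))) ∪
          (Finset.univ.filter (fun k => f k = g j)) := by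
      intro k hk
      simp only [Finset.mem_union, Finset.mem_filter, Finset.mem_univ, true_and] at hk ⊢
      rcases hk with h | h | h
      · exact Or.inl (Or.inl h.symm)
      · exact Or.inl (Or.inr h.symm)
      · exact Or.inr h
    have e2 : ((Finset.univ : Finset {j // j ∈ J}).filter (fun k => g k = f j)).card ≤ 1 := by
      rw [Finset.card_le_one]
      intro x hx y hy
      simp only [Finset.mem_filter, Finset.mem_univ, true_and] at hx hy
      exact hg (hx.trans hy.symm)
    have e3 := hcount (f j)
    have e4 := hcount (g j)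
    have e5 := Finset.card_le_card e1
    have e6 := Finset.card_union_le
      (((Finset.univ : Finset {j // j ∈ J}).filter (fun k => f k = f j)) ∪
        (Finset.univ.filter (fun k => g k = f j))) (Finset.univ.filter (fun k => f k = g j))
    have e7 := Finset.card_union_le
      ((Finset.univ : Finset {j // j ∈ J}).filter (fun k => f k = f j))
        (Finset.univ.filter (fun k => g k = f j))
    omega)
  rw [Finset.card_univ, Fintype.card_coe] at hcard
  -- no conflicts in `G`
  have hff : ∀ j ∈ G, ∀ k ∈ G, f j = f k → j = k := by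
    intro j hj k hk h
    by_contra hne
    exact hind j hj k hk hne (Or.inl h)
  have hfg : ∀ j ∈ G, ∀ k ∈ G, f j ≠ g k := by
    intro j hj k hk h
    by_cases hne : j = k
    · subst hne
      rw [hfdef, hgdef] at h
      obtain ⟨hab, he⟩ := idx_eq (hj := hjA j) (hj' := j.1.2) h
      have e0 := hsep hab
      subst hab
      have e1 := h1 j
      have e2 := h2 j
      have e3 := hz j
      have e4 := hδ j
      have e5 := (hlen a (jA j) (hjA j))
      have e7 : st (W a) (jA j) = st (W a) j.1 := by rw [he]
      rcases lt_abs.1 e0 with h8 | h8 <;> omega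
    · exact hind j hj k hk hne (Or.inr (Or.inl h))
  obtain ⟨G', hG'⟩ : ∃ G' : Finset {j // j ∈ G}, G' = Finset.univ.filter (fun j => f j.1 ∉ Z) :=
    ⟨_, rfl⟩
  have hGcard : (J.card : ℝ) / (2 * L + 2) - Z.card ≤ G'.card := by
    have e1 : (Finset.univ : Finset {j // j ∈ G}) ⊆
        G' ∪ (Finset.univ.filter (fun j => f j.1 ∈ Z)) := by
      intro j _
      rw [hG']
      simp only [Finset.mem_union, Finset.mem_filter, Finset.mem_univ, true_and]
      tauto
    have e2 : ((Finset.univ : Finset {j // j ∈ G}).filter (fun j => f j.1 ∈ Z)).card ≤ Z.card := by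
      refine Finset.card_le_card_of_injOn (fun j => f j.1) (fun j hj => by simpa using hj) ?_
      intro j _ k _ h
      exact Subtype.ext (hff j.1 j.2 k.1 k.2 h)
    have e3 := Finset.card_le_card e1
    have e4 := Finset.card_union_le G' (Finset.univ.filter (fun j => f j.1 ∈ Z))
    rw [Finset.card_univ, Fintype.card_coe] at e3
    have e5 : (J.card : ℝ) ≤ (2 * L + 2) * G.card := by
      have : J.card ≤ (2 * L + 2) * G.card := by
        refine hcard.trans (le_of_eq ?_)
        ring
      exact_mod_cast this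
    have e6 : (G.card : ℝ) ≤ G'.card + Z.card := by
      have : G.card ≤ G'.card + Z.card := by omega
      exact_mod_cast this
    have e7 : (J.card : ℝ) / (2 * L + 2) ≤ G.card := by
      rw [div_le_iff₀ (by positivity)]
      linarith
    linarith
  have hnone := none_le (Ω := rearr W) (μ := μ) hμ.nonneg hμ.sum_one hκ hκ1 hε hε1
    (f := fun j : {j // j ∈ G} => f j.1) (g := fun j : {j // j ∈ G} => g j.1)
    (fun j k h => Subtype.ext (hff j.1 j.2 k.1 k.2 h))
    (fun j k h => Subtype.ext (hg h)) (fun j k => hfg j.1 j.2 k.1 k.2)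
    (s := fun j => blk W (f j.1)) (t := fun j => T j.1)
    (fun j => mem_rearr.2 (List.Perm.refl _)) (fun j => by
      rw [mem_rearr, hgdef]
      exact hT₂ j.1) G'
    (fun j hj x hx => hμ.unchanged (f j.1) (by
      rw [hG', Finset.mem_filter] at hj
      exact hj.2) x hx)
    (fun j _ x hx => hμ.lower (g j.1) (by
      rw [hgdef]
      exact hJN _ j.1.2) x hx (T j.1) (by
      rw [mem_rearr, hgdef]
      exact hT₂ j.1))
  refine le_trans ?_ (hnone.trans ?_)
  · unfold prob
    refine Finset.sum_le_sum_of_subset_of_nonneg ?_ ?_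
    · intro x hx
      simp only [Finset.mem_filter] at hx ⊢
      refine ⟨hx.1, fun j _ hj => hx.2 (hT j.1 x hx.1 ?_ ?_)⟩
      · have := hj.1
        rw [hfdef] at this
        exact this
      · have := hj.2
        rw [hgdef] at this
        exact this
    · intro x hx _
      simp only [Finset.mem_filter] at hx
      exact hμ.nonneg x hx.1
  · rw [Real.exp_le_exp]
    have h7 : 0 ≤ κ * ε := mul_nonneg hκ hε
    nlinarith [mul_le_mul_of_nonneg_left hGcard h7]

end Pool.Agent.K9h94.SB
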